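import Pool.Agent.Lps.Dis

set_option autoImplicit false

/-!
# Loops contract
-/

namespace Pool.Agent.Lps

open Set

/- MODULE oa
THE LIMIT.  Mesh `h n = 1 / (n + 1)`, `F n` of `exists_approx`; all values are in a fixed ball
(`cells_bound` for the hull: or compactness: the hulls are bounded by `hull_far`-free argument: a cell of
`hull h X` is in the box of `X`; if this is inconvenient use `‖F x y - f 0‖ ≤ 4 * ω + 6 * h` with `ω` a bound
of `‖f s - f t‖` on `[0,1]`, from the third and fourth clause).  `F x y` := limit of `F n x y` along an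
ultrafilter finer than `atTop` (`Filter.hyperfilter ℕ`, `IsCompact.ultrafilter_le_nhds`).  The four clauses
pass to the limit; `F x y ∈ X` by `hull_far` (otherwise `F n x y` is near `F x y` for some large `n` and the cell
is off the hull). -/
theorem exists_limit {X : Set ℂ} (hX : IsCompact X) (hc : IsConnected X) (hcc : IsConnected Xᶜ)
    {f : ℝ → ℂ} (hf : ContinuousOn f (Icc 0 1)) (hfX : ∀ x ∈ Icc (0 : ℝ) 1, f x ∈ X) :
    ∃ F : ℝ → ℝ → ℂ, (∀ x ∈ Icc (0 : ℝ) 1, ∀ y ∈ Icc (0 : ℝ) 1, F x y ∈ X) ∧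
      (∀ x ∈ Icc (0 : ℝ) 1, F x x = f x) ∧
      (∀ x ∈ Icc (0 : ℝ) 1, ∀ y ∈ Icc (0 : ℝ) 1, f x = f 0 ∨ f y = f 0 → F x y = f 0) ∧
      (∀ x ∈ Icc (0 : ℝ) 1, ∀ y ∈ Icc (0 : ℝ) 1, ∀ y' ∈ Icc (0 : ℝ) 1, ∀ ω : ℝ,
        (∀ s ∈ uIcc y y', ∀ t ∈ uIcc y y', ‖f s - f t‖ ≤ ω) →
        ‖F x y - F x y'‖ ≤ 4 * ω ∧ ‖F y x - F y' x‖ ≤ 4 * ω) := by
  obtain ⟨h, hh⟩ : ∃ h : ℕ → ℝ, h = fun n : ℕ => 1 / ((n : ℝ) + 1) := ⟨_, rfl⟩
  have hpos : ∀ n, 0 < h n := fun n => by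
    rw [hh]
    exact Nat.one_div_pos_of_nat
  have hle : ∀ n, h n ≤ 1 := fun n => by
    rw [hh]
    have h1 : (0 : ℝ) ≤ n := Nat.cast_nonneg n
    show 1 / ((n : ℝ) + 1) ≤ 1
    rw [div_le_one (by linarith)]
    linarith
  choose F hF1 hF2 hF3 hF4 using fun n => exists_approx hX hc hf hfX (hpos n)
  obtain ⟨M, hM⟩ : ∃ M : ℝ, ∀ s ∈ Icc (0 : ℝ) 1, ∀ t ∈ Icc (0 : ℝ) 1, ‖f s - f t‖ ≤ M := by
    have h1 := (isCompact_Icc.image_of_continuousOn hf).isBounded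
    obtain ⟨M, hM⟩ := Metric.isBounded_iff.1 h1
    refine ⟨M, fun s hs t ht => ?_⟩
    rw [← dist_eq_norm]
    exact hM (mem_image_of_mem f hs) (mem_image_of_mem f ht)
  have hsub : ∀ x ∈ Icc (0 : ℝ) 1, ∀ y ∈ Icc (0 : ℝ) 1, ∀ s ∈ uIcc x y, s ∈ Icc (0 : ℝ) 1 := by
    intro x hx y hy s hs
    exact (uIcc_subset_Icc hx hy) hs
  have hlim : ∀ x y : ℝ, ∃ a : ℂ, x ∈ Icc (0 : ℝ) 1 → y ∈ Icc (0 : ℝ) 1 →
      Filter.Tendsto (fun n => F n x y) (Filter.hyperfilter ℕ : Filter ℕ) (nhds a) := by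
    intro x y
    by_cases hxy : x ∈ Icc (0 : ℝ) 1 ∧ y ∈ Icc (0 : ℝ) 1
    · obtain ⟨hx, hy⟩ := hxy
      have hb : ∀ n, F n x y ∈ Metric.closedBall (f x) (4 * M + 6) := by
        intro n
        rw [Metric.mem_closedBall, dist_eq_norm]
        have h1 := (hF4 n x hx y hy x hx M (fun s hs t ht =>
          hM s (hsub y hy x hx s hs) t (hsub y hy x hx t ht))).1
        have h2 := hF2 n x hx
        have h3 := norm_add_le (F n x y - F n x x) (F n x x - f x)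
        rw [sub_add_sub_cancel] at h3
        have h4 := hle n
        linarith
      have h1 := (isCompact_closedBall (f x) (4 * M + 6)).ultrafilter_le_nhds
        ((Filter.hyperfilter ℕ).map fun n => F n x y) (by
          rw [Filter.le_principal_iff]
          show {n | F n x y ∈ Metric.closedBall (f x) (4 * M + 6)} ∈
            (Filter.hyperfilter ℕ : Filter ℕ)
          exact Filter.Eventually.of_forall hb)
      obtain ⟨a, -, ha⟩ := h1
      exact ⟨a, fun _ _ => ha⟩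
    · exact ⟨0, fun hx hy => absurd ⟨hx, hy⟩ hxy⟩
  choose L hL using hlim
  have h0 : Filter.Tendsto h (Filter.hyperfilter ℕ : Filter ℕ) (nhds 0) := by
    rw [hh]
    exact (tendsto_one_div_add_atTop_nhds_zero_nat (𝕜 := ℝ)).mono_left Nat.hyperfilter_le_atTop
  have hk : ∀ k : ℝ, Filter.Tendsto (fun n => k * h n) (Filter.hyperfilter ℕ : Filter ℕ)
      (nhds 0) := by
    intro k
    have h1 := h0.const_mul k
    rwa [mul_zero] at h1
  refine ⟨L, ?_, ?_, ?_, ?_⟩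
  · intro x hx y hy
    by_contra hcon
    obtain ⟨r, hr, hr'⟩ := hull_far hX hcc hcon
    have h1 : ∀ᶠ n in (Filter.hyperfilter ℕ : Filter ℕ), h n < r := h0.eventually_lt_const hr
    have h2 : ∀ᶠ n in (Filter.hyperfilter ℕ : Filter ℕ), ‖F n x y - L x y‖ < r := by
      have h3 := (hL x y hx hy).eventually (Metric.ball_mem_nhds (L x y) hr)
      refine h3.mono fun n hn => ?_
      rw [← dist_eq_norm]
      exact hn
    obtain ⟨n, hn1, hn2⟩ := (h1.and h2).exists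
    obtain ⟨c, hc1, hc2⟩ := hF1 n x hx y hy
    rw [hc2] at hn2
    exact hr' (h n) (hpos n) hn1 c hn2 hc1
  · intro x hx
    have h1 : ‖L x x - f x‖ ≤ 0 :=
      le_of_tendsto_of_tendsto' (((hL x x hx hx).sub_const (f x)).norm) (hk 2)
        (fun n => hF2 n x hx)
    exact sub_eq_zero.1 (norm_eq_zero.1 (le_antisymm h1 (norm_nonneg _)))
  · intro x hx y hy hxy
    have h1 : ‖L x y - f 0‖ ≤ 0 :=
      le_of_tendsto_of_tendsto' (((hL x y hx hy).sub_const (f 0)).norm) (hk 2)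
        (fun n => hF3 n x hx y hy hxy)
    exact sub_eq_zero.1 (norm_eq_zero.1 (le_antisymm h1 (norm_nonneg _)))
  · intro x hx y hy y' hy' ω hω
    have h1 : Filter.Tendsto (fun n => 4 * ω + 4 * h n) (Filter.hyperfilter ℕ : Filter ℕ)
        (nhds (4 * ω)) := by
      have h2 := (hk 4).const_add (4 * ω)
      rwa [add_zero] at h2
    exact ⟨le_of_tendsto_of_tendsto' (((hL x y hx hy).sub (hL x y' hx hy')).norm) h1
        (fun n => (hF4 n x hx y hy y' hy' ω hω).1),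
      le_of_tendsto_of_tendsto' (((hL y x hy hx).sub (hL y' x hy' hx)).norm) h1
        (fun n => (hF4 n x hx y hy y' hy' ω hω).2)⟩
/- END oa -/

/- MODULE ob
`F` is continuous on the square: uniform continuity of `f` on `[0,1]`: for `ε` there is `δ` with
`‖f s - f t‖ ≤ ε` for `|s - t| ≤ δ`, so `‖F x y - F x' y'‖ ≤ 8 ε` for `|x - x'|, |y - y'| ≤ δ`. -/
theorem continuousOn_limit {f : ℝ → ℂ} (hf : ContinuousOn f (Icc 0 1)) {F : ℝ → ℝ → ℂ}
    (hF : ∀ x ∈ Icc (0 : ℝ) 1, ∀ y ∈ Icc (0 : ℝ) 1, ∀ y' ∈ Icc (0 : ℝ) 1, ∀ ω : ℝ,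
        (∀ s ∈ uIcc y y', ∀ t ∈ uIcc y y', ‖f s - f t‖ ≤ ω) →
        ‖F x y - F x y'‖ ≤ 4 * ω ∧ ‖F y x - F y' x‖ ≤ 4 * ω) :
    ContinuousOn (fun p : ℝ × ℝ => F p.1 p.2) (Icc 0 1 ×ˢ Icc 0 1) := by
  have huc := isCompact_Icc.uniformContinuousOn_of_continuous hf
  rw [Metric.uniformContinuousOn_iff] at huc
  rintro ⟨x₀, y₀⟩ ⟨hx₀, hy₀⟩
  change x₀ ∈ Icc (0 : ℝ) 1 at hx₀
  change y₀ ∈ Icc (0 : ℝ) 1 at hy₀
  rw [Metric.continuousWithinAt_iff]
  intro ε hε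
  obtain ⟨δ, hδ, hδ'⟩ := huc (ε / 16) (by linarith)
  refine ⟨δ, hδ, ?_⟩
  rintro ⟨x, y⟩ hxy hd
  obtain ⟨hx, hy⟩ : x ∈ Icc (0 : ℝ) 1 ∧ y ∈ Icc (0 : ℝ) 1 := ⟨hxy.1, hxy.2⟩
  rw [Prod.dist_eq, max_lt_iff] at hd
  obtain ⟨hd1, hd2⟩ := hd
  have hest : ∀ a ∈ Icc (0 : ℝ) 1, ∀ b ∈ Icc (0 : ℝ) 1, dist a b < δ →
      ∀ s ∈ uIcc a b, ∀ t ∈ uIcc a b, ‖f s - f t‖ ≤ ε / 16 := by
    intro a ha b hb hab s hs t ht
    rw [← dist_eq_norm]
    refine (hδ' s (uIcc_subset_Icc ha hb hs) t (uIcc_subset_Icc ha hb ht) ?_).le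
    refine lt_of_le_of_lt ?_ hab
    rw [Real.dist_eq, Real.dist_eq]
    have h1 := abs_sub_le_of_uIcc_subset_uIcc (uIcc_subset_uIcc hs ht)
    rw [abs_sub_comm s t, abs_sub_comm a b]
    exact h1
  have h1 := (hF x hx y hy y₀ hy₀ (ε / 16) (hest y hy y₀ hy₀ hd2)).1
  have h2 := (hF y₀ hy₀ x hx x₀ hx₀ (ε / 16) (hest x hx x₀ hx₀ hd1)).2
  show dist (F x y) (F x₀ y₀) < ε
  rw [dist_eq_norm]
  have h3 := norm_add_le (F x y - F x y₀) (F x y₀ - F x₀ y₀)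
  rw [sub_add_sub_cancel] at h3
  linarith
/- END ob -/

/- MODULE oc
THE HOMOTOPY.  `f s = γ s` (extended by `Path.extend`), `H t s = F s (s * t)` : `H 1 s = γ s`,
`H 0 s = F s 0 = γ 0`, `H t 0 = F 0 0 = γ 0`, `H t 1 = F 1 t = γ 0` since `f 1 = f 0`.  Build
`Path.Homotopy` (or its reverse). -/
theorem loop_null {X : Set ℂ} (hX : IsCompact X) (hc : IsConnected X) (hcc : IsConnected Xᶜ)
    (x : X) (γ : Path x x) : γ.Homotopic (Path.refl x) := by
  obtain ⟨f, hf⟩ : ∃ f : ℝ → ℂ, f = fun s => (γ.extend s : ℂ) := ⟨_, rfl⟩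
  have hfc : Continuous f := by
    rw [hf]
    exact continuous_subtype_val.comp γ.continuous_extend
  have hf0 : f 0 = x := by
    rw [hf]
    show (γ.extend 0 : ℂ) = x
    rw [Path.extend_zero]
  have hf1 : f 1 = x := by
    rw [hf]
    show (γ.extend 1 : ℂ) = x
    rw [Path.extend_one]
  have hfI : ∀ s : unitInterval, f s = γ s := by
    intro s
    rw [hf]
    show (γ.extend s : ℂ) = γ s
    rw [Path.extend_apply γ s.2]
  obtain ⟨F, hF1, hF2, hF3, hF4⟩ := exists_limit hX hc hcc hfc.continuousOn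
    (fun s _ => by rw [hf]; exact (γ.extend s).2)
  have hcont := continuousOn_limit hfc.continuousOn hF4
  have hI : ∀ s t : unitInterval, ((s : ℝ), (s : ℝ) * (1 - t)) ∈
      Icc (0 : ℝ) 1 ×ˢ Icc (0 : ℝ) 1 := by
    intro s t
    have h1 := s.2
    have h2 := t.2
    refine ⟨h1, ?_, ?_⟩
    · exact mul_nonneg h1.1 (by linarith [h2.2])
    · exact mul_le_one₀ h1.2 (by linarith [h2.2]) (by linarith [h2.1])
  have hIx : ∀ s t : unitInterval, (s : ℝ) * (1 - t) ∈ Icc (0 : ℝ) 1 := fun s t => (hI s t).2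
  let G : unitInterval × unitInterval → X := fun p =>
    ⟨F p.2 (p.2 * (1 - p.1)), hF1 _ p.2.2 _ (hIx p.2 p.1)⟩
  have hG : Continuous G := by
    refine Continuous.subtype_mk ?_ _
    have h1 : Continuous fun p : unitInterval × unitInterval =>
        ((p.2 : ℝ), (p.2 : ℝ) * (1 - p.1)) := by fun_prop
    have h2 : (Icc (0 : ℝ) 1 ×ˢ Icc (0 : ℝ) 1 : Set (ℝ × ℝ)) = Icc 0 1 ×ˢ Icc 0 1 := rfl
    exact hcont.comp_continuous h1 (fun p => by
      have h3 := hI p.2 p.1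
      exact h3)
  have h0 : (0 : ℝ) ∈ Icc (0 : ℝ) 1 := ⟨le_refl _, zero_le_one⟩
  refine ⟨{ toFun := G, continuous_toFun := hG, map_zero_left := ?_, map_one_left := ?_, prop' := ?_ }⟩
  · intro s
    apply Subtype.ext
    show F s (s * (1 - ((0 : unitInterval) : ℝ))) = γ s
    rw [Set.Icc.coe_zero, sub_zero, mul_one, hF2 _ s.2, hfI]
  · intro s
    apply Subtype.ext
    show F s (s * (1 - ((1 : unitInterval) : ℝ))) = x
    rw [Set.Icc.coe_one, sub_self, mul_zero, hF3 _ s.2 0 h0 (Or.inr rfl), hf0]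
  · intro t s hs
    apply Subtype.ext
    show F s (s * (1 - (t : ℝ))) = γ s
    rcases hs with hs | hs
    · rw [hs, Set.Icc.coe_zero, zero_mul, hF2 0 h0, hf0]
      exact (congrArg Subtype.val γ.source).symm
    · have h1 : s = 1 := hs
      rw [h1, hF3 _ (1 : unitInterval).2 _ (hIx 1 t) (Or.inl (by rw [Set.Icc.coe_one, hf1, hf0])), hf0]
      exact (congrArg Subtype.val γ.target).symm
/- END oc -/

end Pool.Agent.Lps
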