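import Mathlib

set_option autoImplicit false

/-!
# Loops in a compact connected plane set with connected complement are null homotopic.  Definitions.

`X` compact connected, complement connected, `f : [0,1] → X` a loop at `o`.  Approximate `X` by finite
sets `D` of grid cells without holes.  In such a `D` any three cells have a median `m`: no vertical and no
horizontal run of cells through `m`, when removed from `D`, leaves two of the three cells in the same
piece.  The median is Lipschitz in each argument for the plane distance (only the columns and rows met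
by the moving argument matter), so the medians of `o, f x, f y` converge to a continuous
`F x y ∈ X` with `F x x = f x`, `F x 0 = F 1 y = o`; `F s (s t)` contracts the loop.
-/

namespace Pool.Agent.Lps

/-- The cells of the grid. -/
abbrev Cell : Type := ℤ × ℤ

/-- The grid graph: cells with a common side are adjacent. -/
def grid : SimpleGraph Cell :=
  SimpleGraph.fromRel fun p q => q = (p.1 + 1, p.2) ∨ q = (p.1, p.2 + 1)

/-- `p` and `q` are joined by a walk of cells of `A`. -/
def Joined (A : Set Cell) (p q : Cell) : Prop :=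
  ∃ w : grid.Walk p q, ∀ v ∈ w.support, v ∈ A

/-- The sets without holes: every cell off `D` is joined to far away by a walk of king's moves
through cells off `D`. -/
def Full (D : Set Cell) : Prop :=
  ∀ e : Cell, e ∉ D → ∀ N : ℤ, ∃ e' : Cell, N ≤ e'.1 ∧ N ≤ e'.2 ∧
    Relation.ReflTransGen (fun u v : Cell => v ∉ D ∧ |u.1 - v.1| ≤ 1 ∧ |u.2 - v.2| ≤ 1) e e'

/-- Finite connected sets of cells without holes. -/
structure Good (D : Set Cell) : Prop where
  fin : D.Finite
  con : ∀ p ∈ D, ∀ q ∈ D, Joined D p q
  full : Full D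

/-- The vertical run of cells of `D` through `p`. -/
def vrun (D : Set Cell) (p : Cell) : Set Cell :=
  {q | q.1 = p.1 ∧ ∀ y : ℤ, (p.2 ≤ y ∧ y ≤ q.2) ∨ (q.2 ≤ y ∧ y ≤ p.2) → (p.1, y) ∈ D}

/-- The horizontal run of cells of `D` through `p`. -/
def hrun (D : Set Cell) (p : Cell) : Set Cell :=
  {q | q.2 = p.2 ∧ ∀ x : ℤ, (p.1 ≤ x ∧ x ≤ q.1) ∨ (q.1 ≤ x ∧ x ≤ p.1) → (x, p.2) ∈ D}

/-- The signed number of crossings of the darts of a walk from column `a` to column `a + 1` above
row `b`. -/
def sg (a b : ℤ) (d : grid.Dart) : ℤ :=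
  (if d.fst.1 = a ∧ d.snd.1 = a + 1 ∧ b < d.fst.2 then 1 else 0) -
    (if d.fst.1 = a + 1 ∧ d.snd.1 = a ∧ b < d.fst.2 then 1 else 0)

/-- The winding number of a closed walk around the cell `(a, b)`. -/
def cr (a b : ℤ) {p q : Cell} (w : grid.Walk p q) : ℤ := (w.darts.map (sg a b)).sum

/-- The signed number of crossings from `(a, y)` to `(a + 1, y)`. -/
def cx (a y : ℤ) {p q : Cell} (w : grid.Walk p q) : ℤ :=
  (w.darts.map fun d : grid.Dart =>
    (if d.fst = (a, y) ∧ d.snd = (a + 1, y) then (1 : ℤ) else 0) -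
      (if d.fst = (a + 1, y) ∧ d.snd = (a, y) then 1 else 0)).sum

/-- Medians: no two of the three cells are joined off the vertical run of `m`, and the same for the
horizontal run. -/
structure IsMed (D : Set Cell) (p q r m : Cell) : Prop where
  mem : m ∈ D
  v1 : ¬ Joined (D \ vrun D m) p q
  v2 : ¬ Joined (D \ vrun D m) q r
  v3 : ¬ Joined (D \ vrun D m) p r
  h1 : ¬ Joined (D \ hrun D m) p q
  h2 : ¬ Joined (D \ hrun D m) q r
  h3 : ¬ Joined (D \ hrun D m) p r

/-- The closed square of the cell `c` of the grid of mesh `h`. -/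
def sq (h : ℝ) (c : Cell) : Set ℂ :=
  {p | (c.1 : ℝ) * h ≤ p.re ∧ p.re ≤ (c.1 + 1) * h ∧ (c.2 : ℝ) * h ≤ p.im ∧ p.im ≤ (c.2 + 1) * h}

/-- The cell of a point. -/
noncomputable def cell (h : ℝ) (p : ℂ) : Cell := (⌊p.re / h⌋, ⌊p.im / h⌋)

/-- The cells which meet `X`. -/
def cells (h : ℝ) (X : Set ℂ) : Set Cell := {c | (sq h c ∩ X).Nonempty}

/-- The cells which meet `X` together with the holes: the cells which are not joined to far away by
king's moves through cells which do not meet `X`. -/
def hull (h : ℝ) (X : Set ℂ) : Set Cell :=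
  {c | c ∈ cells h X ∨ ∃ N : ℤ, ∀ e' : Cell, N ≤ e'.1 → N ≤ e'.2 →
    ¬ Relation.ReflTransGen
      (fun u v : Cell => v ∉ cells h X ∧ |u.1 - v.1| ≤ 1 ∧ |u.2 - v.2| ≤ 1) c e'}

end Pool.Agent.Lps
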