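import Pool.Agent.Lps.Med

set_option autoImplicit false

/-!
# The cells of a compact connected plane set
-/

namespace Pool.Agent.Lps

open Set

/- MODULE na
`cell h p` contains `p` in its closed square (`Int.floor_le`, `Int.lt_floor_add_one`); the cells whose
closed square contains `p` are the products of `{⌊p.re/h⌋}` or `{⌊p.re/h⌋ - 1, ⌊p.re/h⌋}` (the latter if
`p.re / h` is an integer) with the same for `im`, any two of them are joined by a walk of at most two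
steps inside this set of cells.  A point `p'` near `p` has its cell among them. -/
private theorem na_floor {h : ℝ} (hh : 0 < h) (x : ℝ) :
    ((⌊x / h⌋ : ℤ) : ℝ) * h ≤ x ∧ x ≤ (((⌊x / h⌋ : ℤ) : ℝ) + 1) * h := by
  constructor
  · calc ((⌊x / h⌋ : ℤ) : ℝ) * h ≤ x / h * h :=
          mul_le_mul_of_nonneg_right (Int.floor_le (x / h)) hh.le
      _ = x := div_mul_cancel₀ x hh.ne'
  · calc x = x / h * h := (div_mul_cancel₀ x hh.ne').symm
      _ ≤ (((⌊x / h⌋ : ℤ) : ℝ) + 1) * h :=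
          mul_le_mul_of_nonneg_right (Int.lt_floor_add_one (x / h)).le hh.le

private theorem na_lt {h : ℝ} (hh : 0 < h) {x : ℝ} {n : ℤ} :
    (n : ℝ) * h ≤ x ↔ n ≤ ⌊x / h⌋ := by
  rw [Int.le_floor, le_div_iff₀ hh]

private theorem na_one {h : ℝ} (hh : 0 < h) {x : ℝ} {a b : ℤ} (ha : (a : ℝ) * h ≤ x)
    (hb : x ≤ ((b : ℝ) + 1) * h) : a ≤ b + 1 := by
  have h1 : (a : ℝ) * h ≤ ((b : ℝ) + 1) * h := ha.trans hb
  have h2 : (a : ℝ) ≤ (b : ℝ) + 1 := le_of_mul_le_mul_right h1 hh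
  exact_mod_cast h2

private theorem na_near {h : ℝ} (hh : 0 < h) (x : ℝ) : ∃ δ : ℝ, 0 < δ ∧ ∀ x' : ℝ, |x' - x| < δ →
    ((⌊x' / h⌋ : ℤ) : ℝ) * h ≤ x ∧ x ≤ (((⌊x' / h⌋ : ℤ) : ℝ) + 1) * h := by
  obtain ⟨n, hn⟩ : ∃ n : ℤ, n = ⌊x / h⌋ := ⟨_, rfl⟩
  have h1 : (n : ℝ) * h ≤ x := (na_lt hh).2 hn.le
  have h2 : x < ((n : ℝ) + 1) * h := by
    by_contra h3
    push Not at h3
    have h4 : (((n + 1 : ℤ)) : ℝ) * h ≤ x := by
      push_cast
      exact h3
    have h5 := (na_lt hh).1 h4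
    omega
  have key : ∀ x' : ℝ, x' < ((n : ℝ) + 1) * h → ((⌊x' / h⌋ : ℤ) : ℝ) * h ≤ x := by
    intro x' hx'
    have h3 : ⌊x' / h⌋ < n + 1 := by
      by_contra h4
      push Not at h4
      have h5 := (na_lt hh).2 h4
      push_cast at h5
      linarith
    have h4 : ((⌊x' / h⌋ : ℤ) : ℝ) ≤ n := by exact_mod_cast (by omega : ⌊x' / h⌋ ≤ n)
    exact (mul_le_mul_of_nonneg_right h4 hh.le).trans h1
  rcases h1.eq_or_lt with h3 | h3
  · refine ⟨h, hh, fun x' hx' => ?_⟩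
    rw [abs_lt] at hx'
    refine ⟨key x' (by rw [add_mul, one_mul, h3]; linarith), ?_⟩
    have h4 : n - 1 ≤ ⌊x' / h⌋ := by
      rw [← na_lt hh]
      push_cast
      rw [sub_mul, one_mul, h3]
      linarith
    have h5 : (n : ℝ) ≤ ((⌊x' / h⌋ : ℤ) : ℝ) + 1 := by
      have h6 : n ≤ ⌊x' / h⌋ + 1 := by omega
      exact_mod_cast h6
    rw [← h3]
    exact mul_le_mul_of_nonneg_right h5 hh.le
  · refine ⟨min (x - n * h) (((n : ℝ) + 1) * h - x), lt_min (by linarith) (by linarith),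
      fun x' hx' => ?_⟩
    rw [abs_lt] at hx'
    have m1 := min_le_left (x - n * h) (((n : ℝ) + 1) * h - x)
    have m2 := min_le_right (x - n * h) (((n : ℝ) + 1) * h - x)
    refine ⟨key x' (by linarith), ?_⟩
    have h4 : n ≤ ⌊x' / h⌋ := by
      rw [← na_lt hh]
      linarith
    have h5 : (n : ℝ) + 1 ≤ ((⌊x' / h⌋ : ℤ) : ℝ) + 1 := by
      have h6 : (n : ℝ) ≤ ((⌊x' / h⌋ : ℤ) : ℝ) := by exact_mod_cast h4
      linarith
    exact h2.le.trans (mul_le_mul_of_nonneg_right h5 hh.le)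

private theorem na_step {A : Set Cell} {u v : Cell} (hu : u ∈ A) (hv : v ∈ A)
    (h : (u.1 = v.1 ∧ |u.2 - v.2| ≤ 1) ∨ (u.2 = v.2 ∧ |u.1 - v.1| ≤ 1)) : Joined A u v := by
  by_cases huv : u = v
  · rw [huv]
    exact joined_self.2 hv
  · refine Joined.of_adj hu hv (grid_adj.2 ?_)
    rcases h with ⟨h1, h2⟩ | ⟨h1, h2⟩
    · left
      rw [abs_le] at h2
      refine ⟨h1, ?_⟩
      have h3 : u.2 ≠ v.2 := fun h3 => huv (Prod.ext h1 h3)
      omega
    · right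
      rw [abs_le] at h2
      refine ⟨h1, ?_⟩
      have h3 : u.1 ≠ v.1 := fun h3 => huv (Prod.ext h3 h1)
      omega

theorem mem_sq_cell {h : ℝ} (hh : 0 < h) (p : ℂ) : p ∈ sq h (cell h p) := by
  obtain ⟨h1, h2⟩ := na_floor hh p.re
  obtain ⟨h3, h4⟩ := na_floor hh p.im
  exact ⟨h1, h2, h3, h4⟩

theorem joined_at {h : ℝ} (hh : 0 < h) (p : ℂ) {c c' : Cell} (hc : p ∈ sq h c)
    (hc' : p ∈ sq h c') : Joined {v : Cell | p ∈ sq h v} c c' := by
  obtain ⟨a1, a2, a3, a4⟩ := hc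
  obtain ⟨b1, b2, b3, b4⟩ := hc'
  have e1 := na_one hh a1 b2
  have e2 := na_one hh b1 a2
  have e3 := na_one hh a3 b4
  have e4 := na_one hh b3 a4
  have hm : (c'.1, c.2) ∈ {v : Cell | p ∈ sq h v} := ⟨b1, b2, a3, a4⟩
  refine Joined.trans (q := (c'.1, c.2)) (na_step ⟨a1, a2, a3, a4⟩ hm (Or.inr ⟨rfl, ?_⟩))
    (na_step hm ⟨b1, b2, b3, b4⟩ (Or.inl ⟨rfl, ?_⟩))
  · rw [abs_le]
    dsimp only
    omega
  · rw [abs_le]
    dsimp only
    omega

theorem cell_near {h : ℝ} (hh : 0 < h) (p : ℂ) : ∃ δ : ℝ, 0 < δ ∧ ∀ p' : ℂ, ‖p' - p‖ < δ →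
    p ∈ sq h (cell h p') := by
  obtain ⟨δ1, h1, h1'⟩ := na_near hh p.re
  obtain ⟨δ2, h2, h2'⟩ := na_near hh p.im
  refine ⟨min δ1 δ2, lt_min h1 h2, fun p' hp' => ?_⟩
  have e1 : |p'.re - p.re| < δ1 := by
    have h3 := Complex.abs_re_le_norm (p' - p)
    rw [Complex.sub_re] at h3
    exact h3.trans_lt (hp'.trans_le (min_le_left _ _))
  have e2 : |p'.im - p.im| < δ2 := by
    have h3 := Complex.abs_im_le_norm (p' - p)
    rw [Complex.sub_im] at h3
    exact h3.trans_lt (hp'.trans_le (min_le_right _ _))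
  exact ⟨(h1' _ e1).1, (h1' _ e1).2, (h2' _ e2).1, (h2' _ e2).2⟩
/- END na -/

/- MODULE nb
The cells which meet a preconnected set are joined among themselves: for fixed `p ∈ X` the set of
`p' ∈ X` with `Joined (cells h X) (cell h p) (cell h p')` is relatively open and so is its complement in
`X`, by `cell_near` and `joined_at` (all cells containing a point of `X` are in `cells h X`). -/
theorem cells_joined {h : ℝ} (hh : 0 < h) {X : Set ℂ} (hX : IsPreconnected X) {c c' : Cell}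
    (hc : c ∈ cells h X) (hc' : c' ∈ cells h X) : Joined (cells h X) c c' := by
  obtain ⟨p, hp, hpX⟩ := hc
  obtain ⟨p', hp', hpX'⟩ := hc'
  have hsub : ∀ q ∈ X, ({v : Cell | q ∈ sq h v} : Set Cell) ⊆ cells h X :=
    fun q hq v hv => ⟨q, hv, hq⟩
  have key : Joined (cells h X) (cell h p) (cell h p') := by
    refine hX.induction₂ (fun a b => Joined (cells h X) (cell h a) (cell h b)) ?_ ?_ ?_ hpX hpX'
    · intro x hx
      obtain ⟨δ, hδ, hδ'⟩ := cell_near hh x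
      filter_upwards [mem_nhdsWithin_of_mem_nhds (Metric.ball_mem_nhds x hδ)] with y hy
      rw [Metric.mem_ball, dist_eq_norm] at hy
      exact (joined_at hh x (mem_sq_cell hh x) (hδ' y hy)).mono (hsub x hx)
    · intro x y z _ _ _ h1 h2
      exact h1.trans h2
    · intro x y _ _ h1
      exact h1.symm
  exact (((joined_at hh p hp (mem_sq_cell hh p)).mono (hsub p hpX)).trans key).trans
    ((joined_at hh p' (mem_sq_cell hh p') hp').mono (hsub p' hpX'))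

private theorem nb_b {h R x : ℝ} (hh : 0 < h) {n : ℤ} (h1 : (n : ℝ) * h ≤ x)
    (h2 : x ≤ ((n : ℝ) + 1) * h) (hx : |x| ≤ R) : |(n : ℝ)| ≤ R / h + 1 := by
  rw [abs_le] at hx ⊢
  have h3 : (n : ℝ) ≤ R / h := by
    rw [le_div_iff₀ hh]
    linarith
  have h4 : -(R / h) ≤ (n : ℝ) + 1 := by
    rw [← neg_div, div_le_iff₀ hh]
    linarith
  constructor <;> linarith

private theorem nb_r {h ω x y : ℝ} {n m : ℤ} (hh : 0 < h) (h1 : (n : ℝ) * h ≤ x)
    (h2 : x ≤ ((n : ℝ) + 1) * h) (h3 : (m : ℝ) * h ≤ y) (h4 : y ≤ ((m : ℝ) + 1) * h)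
    (hx : |x - y| ≤ ω) : |(n : ℝ) - m| * h ≤ ω + h := by
  rw [← abs_of_pos hh, ← abs_mul, abs_of_pos hh, sub_mul]
  rw [abs_le] at hx ⊢
  rw [add_mul, one_mul] at h2 h4
  constructor <;> linarith

/-- The cells of a bounded set are a finite set; more precisely their indices are bounded by
`R / h + 1`. -/
theorem cells_bound {h R : ℝ} (hh : 0 < h) {X : Set ℂ} (hX : ∀ p ∈ X, ‖p‖ ≤ R) {c : Cell}
    (hc : c ∈ cells h X) : (|(c.1 : ℝ)| ≤ R / h + 1) ∧ |(c.2 : ℝ)| ≤ R / h + 1 := by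
  obtain ⟨p, ⟨h1, h2, h3, h4⟩, hp⟩ := hc
  have e1 := (Complex.abs_re_le_norm p).trans (hX p hp)
  have e2 := (Complex.abs_im_le_norm p).trans (hX p hp)
  exact ⟨nb_b hh h1 h2 e1, nb_b hh h3 h4 e2⟩

/-- The columns and rows of the cells of a small set. -/
theorem cells_range {h : ℝ} (hh : 0 < h) {Y : Set ℂ} {ω : ℝ} (hY : ∀ p ∈ Y, ∀ q ∈ Y,
    |p.re - q.re| ≤ ω ∧ |p.im - q.im| ≤ ω) {c c' : Cell} (hc : c ∈ cells h Y)
    (hc' : c' ∈ cells h Y) : (|(c.1 : ℝ) - c'.1| * h ≤ ω + h) ∧ |(c.2 : ℝ) - c'.2| * h ≤ ω + h := by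
  obtain ⟨p, ⟨h1, h2, h3, h4⟩, hp⟩ := hc
  obtain ⟨q, ⟨g1, g2, g3, g4⟩, hq⟩ := hc'
  obtain ⟨e1, e2⟩ := hY p hp q hq
  exact ⟨nb_r hh h1 h2 g1 g2 e1, nb_r hh h3 h4 g3 g4 e2⟩
/- END nb -/

/- MODULE nc
`hull h X` is good for a compact connected (nonempty) `X`.  Off the box `|c.1|, |c.2| ≤ R/h + 1` no cell
meets `X`, and two cells off the box are joined by king's moves off the box, so a cell off `hull h X`
(not in `cells`, joined to far away) and every cell off the box has the property of `Full`, where the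
chains stay off `hull h X` (all cells of a chain from `c ∉ cells` through cells off `cells` to far away are
themselves off `hull`: go back along the chain).  Note that `c ∉ hull h X` says `c ∉ cells h X` and for all
`N` there is a chain to some `e'` with `N ≤ e'.1`, `N ≤ e'.2`.
Finite: contained in the box.
Connected: a cell of `hull \ cells`: go up in its column: if no cell above meets `X` then it is joined to
far away (up, then right), so it is off `hull`: contradiction; the cells between it and the first cell above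
which meets `X` are in `hull` (they are joined to it by king's moves off `cells`).  Then
`cells_joined`. -/
/-- The king's moves to cells which do not meet `X`. -/
private abbrev nc_S (h : ℝ) (X : Set ℂ) (u v : Cell) : Prop :=
  v ∉ cells h X ∧ |u.1 - v.1| ≤ 1 ∧ |u.2 - v.2| ≤ 1

/-- `c` is joined to far away. -/
private def nc_Esc (h : ℝ) (X : Set ℂ) (c : Cell) : Prop :=
  ∀ N : ℤ, ∃ e' : Cell, N ≤ e'.1 ∧ N ≤ e'.2 ∧ Relation.ReflTransGen (nc_S h X) c e'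

private theorem nc_hull {h : ℝ} {X : Set ℂ} {c : Cell} :
    c ∉ hull h X ↔ c ∉ cells h X ∧ nc_Esc h X c := by
  constructor
  · intro hc
    refine ⟨fun h1 => hc (Or.inl h1), fun N => ?_⟩
    by_contra h1
    refine hc (Or.inr ⟨N, fun e' h2 h3 h4 => h1 ⟨e', h2, h3, h4⟩⟩)
  · rintro ⟨h1, h2⟩ (h3 | ⟨N, h3⟩)
    · exact h1 h3
    · obtain ⟨e', h4, h5, h6⟩ := h2 N
      exact h3 e' h4 h5 h6

private theorem nc_sub {h : ℝ} {X : Set ℂ} : cells h X ⊆ hull h X := fun _ hc => Or.inl hc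

private theorem nc_esc_trans {h : ℝ} {X : Set ℂ} {u v : Cell}
    (huv : Relation.ReflTransGen (nc_S h X) u v) (hv : nc_Esc h X v) : nc_Esc h X u := by
  intro N
  obtain ⟨e', h1, h2, h3⟩ := hv N
  exact ⟨e', h1, h2, huv.trans h3⟩

private theorem nc_up {h : ℝ} {X : Set ℂ} {a b : ℤ} (n : ℕ)
    (H : ∀ y : ℤ, b < y → y ≤ b + n → (a, y) ∉ cells h X) :
    Relation.ReflTransGen (nc_S h X) (a, b) (a, b + n) := by
  induction n with
  | zero =>
    rw [Nat.cast_zero, add_zero]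
  | succ n ih =>
    refine (ih fun y h1 h2 => H y h1 (by push_cast; omega)).tail ⟨H _ (by omega) le_rfl, ?_, ?_⟩
    · rw [abs_le]
      dsimp only
      omega
    · rw [abs_le]
      dsimp only
      push_cast
      omega

private theorem nc_right {h : ℝ} {X : Set ℂ} {a b : ℤ} (n : ℕ)
    (H : ∀ x : ℤ, a < x → x ≤ a + n → (x, b) ∉ cells h X) :
    Relation.ReflTransGen (nc_S h X) (a, b) (a + n, b) := by
  induction n with
  | zero =>
    rw [Nat.cast_zero, add_zero]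
  | succ n ih =>
    refine (ih fun y h1 h2 => H y h1 (by push_cast; omega)).tail ⟨H _ (by omega) le_rfl, ?_, ?_⟩
    · rw [abs_le]
      dsimp only
      push_cast
      omega
    · rw [abs_le]
      dsimp only
      omega

private theorem nc_esc_up {h : ℝ} {X : Set ℂ} {B : ℤ}
    (hB : ∀ v ∈ cells h X, |v.1| ≤ B ∧ |v.2| ≤ B) {c : Cell}
    (H : ∀ y : ℤ, c.2 < y → (c.1, y) ∉ cells h X) : nc_Esc h X c := by
  intro N
  obtain ⟨n, hn⟩ : ∃ n : ℕ, N ≤ c.2 + n ∧ B + 1 ≤ c.2 + n :=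
    ⟨(N - c.2).toNat + (B + 1 - c.2).toNat, by omega, by omega⟩
  obtain ⟨m, hm⟩ : ∃ m : ℕ, N ≤ c.1 + m := ⟨(N - c.1).toNat, by omega⟩
  refine ⟨(c.1 + m, c.2 + n), hm, hn.1, ?_⟩
  refine (nc_up (a := c.1) (b := c.2) n fun y h1 _ => H y h1).trans
    (nc_right m fun x _ _ hx => ?_)
  have h1 := (hB _ hx).2
  rw [abs_le] at h1
  dsimp only at h1
  omega

private theorem nc_esc_right {h : ℝ} {X : Set ℂ} {B : ℤ}
    (hB : ∀ v ∈ cells h X, |v.1| ≤ B ∧ |v.2| ≤ B) {c : Cell}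
    (H : ∀ x : ℤ, c.1 < x → (x, c.2) ∉ cells h X) : nc_Esc h X c := by
  intro N
  obtain ⟨n, hn⟩ : ∃ n : ℕ, N ≤ c.1 + n ∧ B + 1 ≤ c.1 + n :=
    ⟨(N - c.1).toNat + (B + 1 - c.1).toNat, by omega, by omega⟩
  obtain ⟨m, hm⟩ : ∃ m : ℕ, N ≤ c.2 + m := ⟨(N - c.2).toNat, by omega⟩
  refine ⟨(c.1 + n, c.2 + m), hn.1, hm, ?_⟩
  refine (nc_right (a := c.1) (b := c.2) n fun y h1 _ => H y h1).trans
    (nc_up m fun x _ _ hx => ?_)
  have h1 := (hB _ hx).1
  rw [abs_le] at h1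
  dsimp only at h1
  omega

private theorem nc_esc_off {h : ℝ} {X : Set ℂ} {B : ℤ}
    (hB : ∀ v ∈ cells h X, |v.1| ≤ B ∧ |v.2| ≤ B) {c : Cell} (hc : B < |c.1| ∨ B < |c.2|) :
    nc_Esc h X c := by
  rcases hc with h1 | h1
  · refine nc_esc_up hB fun y _ hy => ?_
    have h2 : |c.1| ≤ B := (hB _ hy).1
    omega
  · refine nc_esc_right hB fun y _ hy => ?_
    have h2 : |c.2| ≤ B := (hB _ hy).2
    omega

private theorem nc_box {h R : ℝ} (hh : 0 < h) {X : Set ℂ} (hX : ∀ p ∈ X, ‖p‖ ≤ R) :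
    ∀ v ∈ cells h X, |v.1| ≤ ⌈R / h + 1⌉ ∧ |v.2| ≤ ⌈R / h + 1⌉ := by
  intro v hv
  obtain ⟨h1, h2⟩ := cells_bound hh hX hv
  have h3 := Int.le_ceil (R / h + 1)
  exact ⟨by exact_mod_cast h1.trans h3, by exact_mod_cast h2.trans h3⟩

private theorem nc_vert {A : Set Cell} {a b : ℤ} (n : ℕ)
    (H : ∀ y : ℤ, b ≤ y → y ≤ b + n → (a, y) ∈ A) : Joined A (a, b) (a, b + n) := by
  induction n with
  | zero =>
    rw [Nat.cast_zero, add_zero]
    exact joined_self.2 (H b le_rfl (by simp))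
  | succ n ih =>
    refine (ih fun y h1 h2 => H y h1 (by push_cast; omega)).trans
      (na_step (H _ (by omega) (by push_cast; omega)) (H _ (by omega) le_rfl) (Or.inl ⟨rfl, ?_⟩))
    rw [abs_le]
    dsimp only
    push_cast
    omega

private theorem nc_reach {h : ℝ} {X : Set ℂ} {B : ℤ}
    (hB : ∀ v ∈ cells h X, |v.1| ≤ B ∧ |v.2| ≤ B) {p : Cell} (hp : p ∈ hull h X) :
    ∃ p' ∈ cells h X, Joined (hull h X) p p' := by
  classical
  by_cases hpc : p ∈ cells h X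
  · exact ⟨p, hpc, joined_self.2 hp⟩
  · have hE : ¬ nc_Esc h X p := fun hE => nc_hull.2 ⟨hpc, hE⟩ hp
    have hex : ∃ n : ℕ, (p.1, p.2 + (n + 1 : ℕ)) ∈ cells h X := by
      by_contra hno
      apply hE
      refine nc_esc_up hB fun y hy hy' => hno ⟨(y - p.2 - 1).toNat, ?_⟩
      have h1 : p.2 + (((y - p.2 - 1).toNat + 1 : ℕ) : ℤ) = y := by
        push_cast
        omega
      rw [h1]
      exact hy'
    obtain ⟨n, hn, hmin⟩ : ∃ n : ℕ, (p.1, p.2 + (n + 1 : ℕ)) ∈ cells h X ∧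
        ∀ m : ℕ, m < n → (p.1, p.2 + (m + 1 : ℕ)) ∉ cells h X :=
      ⟨Nat.find hex, Nat.find_spec hex, fun m hm => Nat.find_min hex hm⟩
    have hoff : ∀ y : ℤ, p.2 < y → y ≤ p.2 + n → (p.1, y) ∉ cells h X := by
      intro y h1 h2
      have h3 := hmin (y - p.2 - 1).toNat (by omega)
      have h4 : p.2 + (((y - p.2 - 1).toNat + 1 : ℕ) : ℤ) = y := by
        push_cast
        omega
      rwa [h4] at h3
    refine ⟨_, hn, ?_⟩
    refine nc_vert (A := hull h X) (a := p.1) (b := p.2) (n + 1) fun y h1 h2 => ?_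
    by_cases h3 : y = p.2 + (n + 1 : ℕ)
    · rw [h3]
      exact nc_sub hn
    · by_contra h4
      apply hE
      obtain ⟨-, h5⟩ := nc_hull.1 h4
      have h6 := nc_up (h := h) (X := X) (a := p.1) (b := p.2) (y - p.2).toNat
        fun z h6 h7 => hoff z h6 (by push_cast at h2 h3; omega)
      have h7 : p.2 + ((y - p.2).toNat : ℤ) = y := by omega
      rw [h7] at h6
      exact nc_esc_trans h6 h5

theorem hull_good {h : ℝ} (hh : 0 < h) {X : Set ℂ} (hX : IsCompact X) (hc : IsConnected X) :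
    Good (hull h X) := by
  obtain ⟨R, hR⟩ := hX.isBounded.exists_norm_le
  have hB := nc_box hh hR
  refine ⟨?_, ?_, ?_⟩
  · refine Set.Finite.subset ((Set.finite_Icc (-⌈R / h + 1⌉) ⌈R / h + 1⌉).prod
      (Set.finite_Icc (-⌈R / h + 1⌉) ⌈R / h + 1⌉)) fun c hc' => ?_
    by_contra hn
    have h1 : ⌈R / h + 1⌉ < |c.1| ∨ ⌈R / h + 1⌉ < |c.2| := by
      by_contra h1
      push Not at h1
      exact hn ⟨abs_le.1 h1.1, abs_le.1 h1.2⟩
    refine nc_hull.2 ⟨fun h2 => ?_, nc_esc_off hB h1⟩ hc'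
    have h3 := hB c h2
    omega
  · intro p hp q hq
    obtain ⟨p', hp', h1⟩ := nc_reach hB hp
    obtain ⟨q', hq', h2⟩ := nc_reach hB hq
    exact (h1.trans ((cells_joined hh hc.isPreconnected hp' hq').mono nc_sub)).trans h2.symm
  · intro e he N
    obtain ⟨-, he2⟩ := nc_hull.1 he
    obtain ⟨e', h1, h2, h3⟩ := he2 (max N (⌈R / h + 1⌉ + 1))
    have h1' : ⌈R / h + 1⌉ + 1 ≤ e'.1 := (le_max_right _ _).trans h1
    have hesc : nc_Esc h X e' := nc_esc_off hB (Or.inl (lt_of_lt_of_le (by omega) (le_abs_self _)))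
    refine ⟨e', (le_max_left _ _).trans h1, (le_max_left _ _).trans h2, ?_⟩
    clear h1 h2 he he2 h1'
    induction h3 using Relation.ReflTransGen.head_induction_on with
    | refl => exact Relation.ReflTransGen.refl
    | head hs ht ih =>
      exact Relation.ReflTransGen.head ⟨nc_hull.2 ⟨hs.1, nc_esc_trans ht hesc⟩, hs.2⟩ ih

theorem cells_sub_hull {h : ℝ} {X : Set ℂ} : cells h X ⊆ hull h X := by
  exact nc_sub
/- END nc -/

/- MODULE nd
Points off `X` are far from the hulls of small mesh.  `Xᶜ` is open and connected, so path connected; let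
`K` be the union of the image of a path in `Xᶜ` from `p` to a point `q` with `‖q‖ > R + 3` (`X` in the ball of
radius `R`) and of a small closed ball around `p` in `Xᶜ`: `K` is compact, connected, disjoint from `X`,
at distance `≥ 4 δ` from `X`.  For `0 < h < δ` (`h ≤ 1`) the cells which meet `K` do not meet `X` (a
closed square has diameter `≤ 2 h`), and they are joined among each other (`cells_joined`); the cell of
`q` is off the box of `X` (all cells `c` with `c.1 h`, `c.2 h` large do not meet `X`), so it is joined to far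
away by king's moves off `cells h X` (move away from the origin).  So no cell which meets `K` is in
`hull h X`, in particular the cells `c` with `(c.1 h, c.2 h)` in the small ball. -/
private theorem nd_king {A B : Set Cell} (hAB : ∀ v ∈ A, v ∉ B) {c c' : Cell} (h : Joined A c c') :
    Relation.ReflTransGen (fun u v : Cell => v ∉ B ∧ |u.1 - v.1| ≤ 1 ∧ |u.2 - v.2| ≤ 1) c c' := by
  obtain ⟨w, hw⟩ := h
  induction w with
  | nil => exact Relation.ReflTransGen.refl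
  | @cons u r s hur w' ih =>
    refine Relation.ReflTransGen.head ⟨hAB _ (hw r (by simp)), ?_, ?_⟩ (ih fun v hv => hw v (by
      rw [SimpleGraph.Walk.support_cons]
      exact List.mem_cons_of_mem _ hv))
    · have h' := grid_adj.1 hur
      rw [abs_le]
      omega
    · have h' := grid_adj.1 hur
      rw [abs_le]
      omega

private theorem nd_diag {B : Set Cell} {c : Cell} (hB : ∀ v : Cell, c.1 ≤ v.1 → v ∉ B) (k : ℕ) :
    Relation.ReflTransGen (fun u v : Cell => v ∉ B ∧ |u.1 - v.1| ≤ 1 ∧ |u.2 - v.2| ≤ 1) c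
      (c.1 + (k : ℤ), c.2 + (k : ℤ)) := by
  induction k with
  | zero =>
    have : ((c.1 + ((0 : ℕ) : ℤ), c.2 + ((0 : ℕ) : ℤ)) : Cell) = c := by simp
    rw [this]
  | succ k ih =>
    refine ih.tail ⟨hB _ ?_, ?_, ?_⟩
    · push_cast
      omega
    · push_cast
      rw [abs_le]
      omega
    · push_cast
      rw [abs_le]
      omega

theorem hull_far {X : Set ℂ} (hX : IsCompact X) (hc : IsConnected Xᶜ) {p : ℂ} (hp : p ∉ X) :
    ∃ r : ℝ, 0 < r ∧ ∀ h : ℝ, 0 < h → h < r → ∀ c : Cell,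
      ‖(⟨(c.1 : ℝ) * h, (c.2 : ℝ) * h⟩ : ℂ) - p‖ < r → c ∉ hull h X := by
  obtain ⟨R, hR0, hR⟩ : ∃ R : ℝ, 0 ≤ R ∧ ∀ x ∈ X, ‖x‖ ≤ R := by
    obtain ⟨R, hR⟩ := hX.isBounded.exists_norm_le
    exact ⟨max R 0, le_max_right _ _, fun x hx => (hR x hx).trans (le_max_left _ _)⟩
  have hopen : IsOpen Xᶜ := hX.isClosed.isOpen_compl
  have hqX : (((R + 5 : ℝ) : ℝ) : ℂ) ∈ Xᶜ := by
    intro h
    have := hR _ h
    rw [Complex.norm_real, Real.norm_eq_abs, abs_of_pos (by linarith)] at this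
    linarith
  have hpc : IsPathConnected Xᶜ := (hopen.isConnected_iff_isPathConnected).1 hc
  obtain ⟨γ, hγ⟩ := hpc.joinedIn p hp _ hqX
  obtain ⟨ρ, hρ, hball⟩ := Metric.nhds_basis_closedBall.mem_iff.1 (hopen.mem_nhds hp)
  have hKc : IsCompact (Set.range γ ∪ Metric.closedBall p ρ) :=
    (isCompact_range γ.continuous).union (isCompact_closedBall p ρ)
  have hKp : IsPreconnected (Set.range γ ∪ Metric.closedBall p ρ) :=
    IsPreconnected.union p ⟨0, γ.source⟩ (Metric.mem_closedBall_self hρ.le)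
      (isPreconnected_range γ.continuous) ((convex_closedBall p ρ).isPreconnected)
  have hKX : Disjoint (Set.range γ ∪ Metric.closedBall p ρ) X := by
    rw [Set.disjoint_left]
    rintro x (⟨t, rfl⟩ | hx) hxX
    · exact hγ t hxX
    · exact hball hx hxX
  have hqK : (((R + 5 : ℝ) : ℝ) : ℂ) ∈ Set.range γ ∪ Metric.closedBall p ρ :=
    Or.inl ⟨1, γ.target⟩
  have hbK : Metric.closedBall p ρ ⊆ Set.range γ ∪ Metric.closedBall p ρ :=
    Set.subset_union_right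
  generalize Set.range γ ∪ Metric.closedBall p ρ = K at hKc hKp hKX hqK hbK
  obtain ⟨δ, hδ, hd⟩ := hKX.exists_thickenings hKc hX.isClosed
  have hdist : ∀ k ∈ K, ∀ x ∈ X, δ ≤ dist k x := by
    intro k hk x hx
    by_contra hlt
    push Not at hlt
    rw [Set.disjoint_left] at hd
    exact hd (Metric.self_subset_thickening hδ K hk) (Metric.mem_thickening_iff.2 ⟨x, hx, hlt⟩)
  refine ⟨min (min ρ (δ / 2)) 1, lt_min (lt_min hρ (by linarith)) one_pos, ?_⟩
  intro h hh hhr c hcr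
  have h1 : h < δ / 2 := hhr.trans_le ((min_le_left _ _).trans (min_le_right _ _))
  have h2 : h < 1 := hhr.trans_le (min_le_right _ _)
  have h3 : ‖(⟨(c.1 : ℝ) * h, (c.2 : ℝ) * h⟩ : ℂ) - p‖ < ρ :=
    hcr.trans_le ((min_le_left _ _).trans (min_le_left _ _))
  have hoff : ∀ v ∈ cells h K, v ∉ cells h X := by
    rintro v ⟨k, hkv, hk⟩ ⟨x, hxv, hx⟩
    have hdd := hdist k hk x hx
    have e1 : |(k - x).re| ≤ h := by
      rw [Complex.sub_re, abs_le]
      have := hkv.1; have := hkv.2.1; have := hxv.1; have := hxv.2.1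
      constructor <;> nlinarith
    have e2 : |(k - x).im| ≤ h := by
      rw [Complex.sub_im, abs_le]
      have := hkv.2.2.1; have := hkv.2.2.2; have := hxv.2.2.1; have := hxv.2.2.2
      constructor <;> nlinarith
    have e3 := Complex.norm_le_abs_re_add_abs_im (k - x)
    rw [dist_eq_norm] at hdd
    linarith
  have hcK : c ∈ cells h K := by
    refine ⟨⟨(c.1 : ℝ) * h, (c.2 : ℝ) * h⟩, ⟨le_rfl, ?_, le_rfl, ?_⟩, hbK ?_⟩
    · simp only
      nlinarith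
    · simp only
      nlinarith
    · rw [Metric.mem_closedBall, dist_eq_norm]
      exact h3.le
  have hqc : cell h (((R + 5 : ℝ) : ℝ) : ℂ) ∈ cells h K :=
    ⟨_, mem_sq_cell hh _, hqK⟩
  have hj := nd_king hoff (cells_joined hh hKp hcK hqc)
  have hfar : ∀ v : Cell, (cell h (((R + 5 : ℝ) : ℝ) : ℂ)).1 ≤ v.1 → v ∉ cells h X := by
    rintro v hv ⟨x, hxv, hx⟩
    have e1 := (mem_sq_cell hh (((R + 5 : ℝ) : ℝ) : ℂ)).2.1
    rw [Complex.ofReal_re] at e1
    have e2 : ((cell h (((R + 5 : ℝ) : ℝ) : ℂ)).1 : ℝ) ≤ v.1 := by exact_mod_cast hv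
    have e3 := hxv.1
    have e4 := (Complex.abs_re_le_norm x).trans (hR x hx)
    have e5 := (le_abs_self x.re).trans e4
    nlinarith
  intro hch
  rcases hch with hch | ⟨N, hN⟩
  · exact hoff c hcK hch
  · obtain ⟨k, hk1, hk2⟩ : ∃ k : ℕ, N ≤ (cell h (((R + 5 : ℝ) : ℝ) : ℂ)).1 + (k : ℤ) ∧
        N ≤ (cell h (((R + 5 : ℝ) : ℝ) : ℂ)).2 + (k : ℤ) := by
      refine ⟨(max (N - (cell h (((R + 5 : ℝ) : ℝ) : ℂ)).1)
        (N - (cell h (((R + 5 : ℝ) : ℝ) : ℂ)).2)).toNat, ?_, ?_⟩ <;> omega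
    exact hN _ hk1 hk2 (hj.trans (nd_diag hfar k))
/- END nd -/

/- MODULE ne
THE APPROXIMATE MAPS.  `F x y = (m.1 h, m.2 h)` with `m` a median (`exists_med`, chosen) of the cells of
`f 0`, `f x`, `f y` in `D = hull h X`.  Symmetry: choose for `x ≤ y` and use `IsMed.symm`, or note that the
two estimates only need `IsMed`.  For the estimate in `y`: the cells which meet `f '' uIcc y y'` are joined
(`cells_joined`, the image is connected) and lie in `D`; with `c1, c2` the smallest and largest column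
among them (finite set: `cells_bound`; or take the columns with `|c.1 - (cell h (f y)).1| h ≤ ω + h` in the
form of two integers `c1 ≤ c2` with `(c2 - c1) h ≤ 2 ω + 2 h`) `med_lip_col` gives the estimate.
`F x x`: `IsMed.eq` gives `m = cell h (f x)`, within `h` of `f x` in each coordinate.  `F x y` with
`f x = f 0` : `IsMed D c c (cell (f y)) m`, by `IsMed.rot` and `IsMed.eq` `m = cell h (f 0)`. -/
private theorem ne_cor {h : ℝ} (hh : 0 < h) (p : ℂ) :
    ‖(⟨((cell h p).1 : ℝ) * h, ((cell h p).2 : ℝ) * h⟩ : ℂ) - p‖ ≤ 2 * h := by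
  obtain ⟨h1, h2, h3, h4⟩ := mem_sq_cell hh p
  rw [add_mul, one_mul] at h2 h4
  refine (Complex.norm_le_abs_re_add_abs_im _).trans ?_
  have e1 : |((⟨((cell h p).1 : ℝ) * h, ((cell h p).2 : ℝ) * h⟩ : ℂ) - p).re| ≤ h := by
    rw [Complex.sub_re, abs_le]
    dsimp only
    constructor <;> linarith
  have e2 : |((⟨((cell h p).1 : ℝ) * h, ((cell h p).2 : ℝ) * h⟩ : ℂ) - p).im| ≤ h := by
    rw [Complex.sub_im, abs_le]
    dsimp only
    constructor <;> linarith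
  linarith

private theorem ne_dist {h ω : ℝ} (hh : 0 < h) {k : ℤ} (hk : (k : ℝ) * h ≤ ω + h) {n n' : Cell}
    (h1 : |n.1 - n'.1| ≤ 2 * k) (h2 : |n.2 - n'.2| ≤ 2 * k) :
    ‖(⟨(n.1 : ℝ) * h, (n.2 : ℝ) * h⟩ : ℂ) - ⟨(n'.1 : ℝ) * h, (n'.2 : ℝ) * h⟩‖ ≤
      4 * ω + 4 * h := by
  have key : ∀ a b : ℤ, |a - b| ≤ 2 * k → |(a : ℝ) * h - (b : ℝ) * h| ≤ 2 * ω + 2 * h := by
    intro a b hab
    rw [← sub_mul, abs_mul, abs_of_pos hh]
    have h3 : |(a : ℝ) - b| ≤ 2 * k := by exact_mod_cast hab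
    have h4 := mul_le_mul_of_nonneg_right h3 hh.le
    linarith
  refine (Complex.norm_le_abs_re_add_abs_im _).trans ?_
  rw [Complex.sub_re, Complex.sub_im]
  have e1 := key _ _ h1
  have e2 := key _ _ h2
  dsimp only
  linarith

private theorem ne_joined {X : Set ℂ} {f : ℝ → ℂ} {h : ℝ} (hh : 0 < h) (_ : IsCompact X)
    (hf : ContinuousOn f (Icc 0 1)) (hfX : ∀ x ∈ Icc (0 : ℝ) 1, f x ∈ X) {y y' : ℝ}
    (hsub : uIcc y y' ⊆ Icc (0 : ℝ) 1) {ω : ℝ}
    (hω : ∀ s ∈ uIcc y y', ∀ t ∈ uIcc y y', ‖f s - f t‖ ≤ ω) {k : ℤ}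
    (hk : ∀ d : ℤ, |(d : ℝ)| * h ≤ ω + h → |d| ≤ k) :
    Joined (hull h X ∩ {v : Cell | (cell h (f y)).1 - k ≤ v.1 ∧ v.1 ≤ (cell h (f y)).1 + k})
      (cell h (f y)) (cell h (f y')) ∧
    Joined (hull h X ∩ {v : Cell | (cell h (f y)).2 - k ≤ v.2 ∧ v.2 ≤ (cell h (f y)).2 + k})
      (cell h (f y)) (cell h (f y')) := by
  obtain ⟨Y, hY⟩ : ∃ Y : Set ℂ, Y = f '' uIcc y y' := ⟨_, rfl⟩
  have hYp : IsPreconnected Y := by
    rw [hY]
    exact isPreconnected_uIcc.image f (hf.mono hsub)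
  have hYX : Y ⊆ X := by
    rw [hY]
    rintro _ ⟨s, hs, rfl⟩
    exact hfX s (hsub hs)
  have hc1 : cell h (f y) ∈ cells h Y := by
    refine ⟨f y, mem_sq_cell hh _, ?_⟩
    rw [hY]
    exact ⟨y, left_mem_uIcc, rfl⟩
  have hc2 : cell h (f y') ∈ cells h Y := by
    refine ⟨f y', mem_sq_cell hh _, ?_⟩
    rw [hY]
    exact ⟨y', right_mem_uIcc, rfl⟩
  have hcc : cells h Y ⊆ cells h X := fun v ⟨a, ha, ha'⟩ => ⟨a, ha, hYX ha'⟩
  have hYω : ∀ p ∈ Y, ∀ q ∈ Y, |p.re - q.re| ≤ ω ∧ |p.im - q.im| ≤ ω := by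
    rw [hY]
    rintro _ ⟨s, hs, rfl⟩ _ ⟨t, ht, rfl⟩
    have h1 := hω s hs t ht
    have h2 := Complex.abs_re_le_norm (f s - f t)
    have h3 := Complex.abs_im_le_norm (f s - f t)
    rw [Complex.sub_re] at h2
    rw [Complex.sub_im] at h3
    exact ⟨h2.trans h1, h3.trans h1⟩
  have hrg : ∀ v ∈ cells h Y, |v.1 - (cell h (f y)).1| ≤ k ∧ |v.2 - (cell h (f y)).2| ≤ k := by
    intro v hv
    obtain ⟨h1, h2⟩ := cells_range hh hYω hv hc1
    refine ⟨hk _ ?_, hk _ ?_⟩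
    · push_cast
      exact h1
    · push_cast
      exact h2
  have hJ := cells_joined hh hYp hc1 hc2
  have s1 : cells h Y ⊆ hull h X ∩
      {v : Cell | (cell h (f y)).1 - k ≤ v.1 ∧ v.1 ≤ (cell h (f y)).1 + k} := by
    intro v hv
    have h1 := (hrg v hv).1
    rw [abs_le] at h1
    have h2 : (cell h (f y)).1 - k ≤ v.1 ∧ v.1 ≤ (cell h (f y)).1 + k := by omega
    exact ⟨cells_sub_hull (hcc hv), h2⟩
  have s2 : cells h Y ⊆ hull h X ∩
      {v : Cell | (cell h (f y)).2 - k ≤ v.2 ∧ v.2 ≤ (cell h (f y)).2 + k} := by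
    intro v hv
    have h1 := (hrg v hv).2
    rw [abs_le] at h1
    have h2 : (cell h (f y)).2 - k ≤ v.2 ∧ v.2 ≤ (cell h (f y)).2 + k := by omega
    exact ⟨cells_sub_hull (hcc hv), h2⟩
  exact ⟨Joined.mono s1 hJ, Joined.mono s2 hJ⟩

theorem exists_approx {X : Set ℂ} (hX : IsCompact X) (hc : IsConnected X) {f : ℝ → ℂ}
    (hf : ContinuousOn f (Icc 0 1)) (hfX : ∀ x ∈ Icc (0 : ℝ) 1, f x ∈ X) {h : ℝ} (hh : 0 < h) :
    ∃ F : ℝ → ℝ → ℂ, (∀ x ∈ Icc (0 : ℝ) 1, ∀ y ∈ Icc (0 : ℝ) 1, ∃ c ∈ hull h X,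
        F x y = ⟨(c.1 : ℝ) * h, (c.2 : ℝ) * h⟩) ∧
      (∀ x ∈ Icc (0 : ℝ) 1, ‖F x x - f x‖ ≤ 2 * h) ∧
      (∀ x ∈ Icc (0 : ℝ) 1, ∀ y ∈ Icc (0 : ℝ) 1, f x = f 0 ∨ f y = f 0 →
        ‖F x y - f 0‖ ≤ 2 * h) ∧
      (∀ x ∈ Icc (0 : ℝ) 1, ∀ y ∈ Icc (0 : ℝ) 1, ∀ y' ∈ Icc (0 : ℝ) 1, ∀ ω : ℝ,
        (∀ s ∈ uIcc y y', ∀ t ∈ uIcc y y', ‖f s - f t‖ ≤ ω) →
        ‖F x y - F x y'‖ ≤ 4 * ω + 4 * h ∧ ‖F y x - F y' x‖ ≤ 4 * ω + 4 * h) := by
  have hD : Good (hull h X) := hull_good hh hX hc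
  have h0 : (0 : ℝ) ∈ Icc (0 : ℝ) 1 := ⟨le_rfl, zero_le_one⟩
  have hC : ∀ x ∈ Icc (0 : ℝ) 1, cell h (f x) ∈ hull h X := fun x hx =>
    cells_sub_hull ⟨f x, mem_sq_cell hh (f x), hfX x hx⟩
  have hex : ∀ x y : ℝ, ∃ m : Cell, x ∈ Icc (0 : ℝ) 1 → y ∈ Icc (0 : ℝ) 1 →
      IsMed (hull h X) (cell h (f 0)) (cell h (f x)) (cell h (f y)) m := by
    intro x y
    by_cases hx : x ∈ Icc (0 : ℝ) 1
    · by_cases hy : y ∈ Icc (0 : ℝ) 1
      · obtain ⟨m, hm⟩ := exists_med hD (hC 0 h0) (hC x hx) (hC y hy)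
        exact ⟨m, fun _ _ => hm⟩
      · exact ⟨(0, 0), fun _ h => absurd h hy⟩
    · exact ⟨(0, 0), fun h _ => absurd h hx⟩
  choose m hm using hex
  refine ⟨fun x y => ⟨((m x y).1 : ℝ) * h, ((m x y).2 : ℝ) * h⟩, ?_, ?_, ?_, ?_⟩
  · intro x hx y hy
    exact ⟨m x y, (hm x y hx hy).mem, rfl⟩
  · intro x hx
    have h1 : m x x = cell h (f x) := IsMed.eq (hC x hx) (hm x x hx hx)
    show ‖(⟨((m x x).1 : ℝ) * h, ((m x x).2 : ℝ) * h⟩ : ℂ) - f x‖ ≤ 2 * h
    rw [h1]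
    exact ne_cor hh (f x)
  · intro x hx y hy hxy
    have h1 : m x y = cell h (f 0) := by
      have h2 := hm x y hx hy
      rcases hxy with h3 | h3
      · rw [h3] at h2
        exact IsMed.eq (hC 0 h0) h2.rot.rot
      · rw [h3] at h2
        exact IsMed.eq (hC 0 h0) h2.rot
    show ‖(⟨((m x y).1 : ℝ) * h, ((m x y).2 : ℝ) * h⟩ : ℂ) - f 0‖ ≤ 2 * h
    rw [h1]
    exact ne_cor hh (f 0)
  · intro x hx y hy y' hy' ω hω
    have hsub : uIcc y y' ⊆ Icc (0 : ℝ) 1 := by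
      rw [← uIcc_of_le (zero_le_one' ℝ)]
      refine uIcc_subset_uIcc ?_ ?_
      · rw [uIcc_of_le (zero_le_one' ℝ)]
        exact hy
      · rw [uIcc_of_le (zero_le_one' ℝ)]
        exact hy'
    obtain ⟨k, hk1, hk2⟩ : ∃ k : ℤ, 0 ≤ k ∧ (k : ℝ) * h ≤ ω + h ∧
        ∀ d : ℤ, |(d : ℝ)| * h ≤ ω + h → |d| ≤ k := by
      have hω0 : 0 ≤ ω := by
        have h1 := hω y left_mem_uIcc y left_mem_uIcc
        rw [sub_self, norm_zero] at h1
        exact h1
      refine ⟨⌊(ω + h) / h⌋, Int.floor_nonneg.2 (by positivity), ?_, fun d hd => ?_⟩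
      · rw [← le_div_iff₀ hh]
        exact Int.floor_le _
      · rw [Int.le_floor, Int.cast_abs, le_div_iff₀ hh]
        exact hd
    have hY := ne_joined hh hX (X := X) hf hfX hsub hω hk2.2
    have hest : ∀ a ∈ hull h X, ∀ n n' : Cell,
        IsMed (hull h X) (cell h (f 0)) a (cell h (f y)) n →
        IsMed (hull h X) (cell h (f 0)) a (cell h (f y')) n' →
        ‖(⟨(n.1 : ℝ) * h, (n.2 : ℝ) * h⟩ : ℂ) - ⟨(n'.1 : ℝ) * h, (n'.2 : ℝ) * h⟩‖ ≤
          4 * ω + 4 * h := by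
      intro a ha n n' hn hn'
      have h1 := med_lip_col hD (hC 0 h0) ha hn hn' (c1 := (cell h (f y)).1 - k)
        (c2 := (cell h (f y)).1 + k) (by omega) hY.1
      have h2 := med_lip_row hD (hC 0 h0) ha hn hn' (c1 := (cell h (f y)).2 - k)
        (c2 := (cell h (f y)).2 + k) (by omega) hY.2
      exact ne_dist hh hk2.1 (by omega) (by omega)
    refine ⟨hest _ (hC x hx) _ _ (hm x y hx hy) (hm x y' hx hy'), ?_⟩
    exact hest _ (hC x hx) _ _ (hm y x hy hx).symm (hm y' x hy' hx).symm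
/- END ne -/

end Pool.Agent.Lps
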