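import Pool.Agent.Lps.Wnd

set_option autoImplicit false

/-!
# Medians in finite sets of cells without holes
-/

namespace Pool.Agent.Lps

/- MODULE ma
Elementary facts on runs: `vrun D p` is an interval of the column of `p` (`y` between two members is a
member), contained in `D` if `p ∈ D`, any two of its cells are joined inside it, `q ∈ vrun D p` implies
`vrun D q = vrun D p`, two runs are equal or disjoint, a cell of `D` adjacent to a cell of the run in the
same column is in the run; for finite `D` the run has a lowest cell `(p.1, j1)` and a highest cell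
`(p.1, j2)` with `(p.1, j1 - 1) ∉ D`, `(p.1, j2 + 1) ∉ D`. -/
private theorem ma_seg (σ : ℤ) (hσ : σ = 1 ∨ σ = -1) (n : ℕ) : ∀ p q : Cell, q.1 = p.1 →
    q.2 = p.2 + σ * n → ∃ w : grid.Walk p q, (∀ v ∈ w.support, v.1 = p.1 ∧
      ((p.2 ≤ v.2 ∧ v.2 ≤ q.2) ∨ (q.2 ≤ v.2 ∧ v.2 ≤ p.2))) ∧ ∀ a y : ℤ, cx a y w = 0 := by
  induction n with
  | zero =>
    intro p q h1 h2
    have h3 : p = q := Prod.ext h1.symm (by rw [h2]; simp)
    subst h3
    refine ⟨SimpleGraph.Walk.nil, ?_, ?_⟩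
    · intro v hv
      rw [SimpleGraph.Walk.support_nil, List.mem_singleton] at hv
      subst hv
      exact ⟨rfl, Or.inl ⟨le_refl _, le_refl _⟩⟩
    · intro a y
      rfl
  | succ n ih =>
    intro p q h1 h2
    obtain ⟨w, hw, hw2⟩ := ih (p.1, p.2 + σ) q h1 (by
      show q.2 = p.2 + σ + σ * n
      rw [h2]
      push_cast
      ring)
    have hadj : grid.Adj p (p.1, p.2 + σ) := by
      rw [grid_adj]
      left
      refine ⟨rfl, ?_⟩
      rcases hσ with h | h
      · left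
        show p.2 + σ = p.2 + 1
        rw [h]
      · right
        show p.2 = p.2 + σ + 1
        rw [h]
        ring
    have hn : (0 : ℤ) ≤ n := Int.natCast_nonneg n
    push_cast at h2
    refine ⟨SimpleGraph.Walk.cons hadj w, ?_, ?_⟩
    · intro v hv
      rw [SimpleGraph.Walk.support_cons, List.mem_cons] at hv
      rcases hv with rfl | hv
      · refine ⟨rfl, ?_⟩
        rcases hσ with h | h
        · subst h
          left
          omega
        · subst h
          right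
          omega
      · obtain ⟨h3, h4⟩ := hw v hv
        refine ⟨h3, ?_⟩
        have h5 : ((p.1, p.2 + σ) : Cell).2 = p.2 + σ := rfl
        rw [h5] at h4
        rcases hσ with h | h
        · subst h
          left
          omega
        · subst h
          right
          omega
    · intro a y
      rw [cx_cons, hw2, if_neg, if_neg]
      · simp
      · rintro ⟨h3, h4⟩
        have h5 := congrArg Prod.fst h3
        have h6 := congrArg Prod.fst h4
        simp only at h5 h6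
        omega
      · rintro ⟨h3, h4⟩
        have h5 := congrArg Prod.fst h3
        have h6 := congrArg Prod.fst h4
        simp only at h5 h6
        omega

theorem mem_vrun_self {D : Set Cell} {p : Cell} (hp : p ∈ D) : p ∈ vrun D p := by
  refine ⟨rfl, fun y hy => ?_⟩
  have h1 : y = p.2 := by omega
  rw [h1]
  exact hp

theorem vrun_sub {D : Set Cell} {p : Cell} : vrun D p ⊆ D := by
  intro q hq
  obtain ⟨h1, h2⟩ := hq
  have h3 := h2 q.2 (by omega)
  rw [← h1] at h3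
  exact h3

theorem vrun_eq {D : Set Cell} {p q : Cell} (h : q ∈ vrun D p) : vrun D q = vrun D p := by
  obtain ⟨h1, h2⟩ := h
  ext r
  constructor
  · rintro ⟨h3, h4⟩
    refine ⟨h3.trans h1, fun y hy => ?_⟩
    by_cases h5 : (p.2 ≤ y ∧ y ≤ q.2) ∨ (q.2 ≤ y ∧ y ≤ p.2)
    · exact h2 y h5
    · rw [← h1]
      exact h4 y (by omega)
  · rintro ⟨h3, h4⟩
    refine ⟨h3.trans h1.symm, fun y hy => ?_⟩
    rw [h1]
    by_cases h5 : (p.2 ≤ y ∧ y ≤ q.2) ∨ (q.2 ≤ y ∧ y ≤ p.2)
    · exact h2 y h5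
    · exact h4 y (by omega)

private theorem ma_walk {D : Set Cell} {p q r : Cell} (hq : q ∈ vrun D p) (hr : r ∈ vrun D p) :
    ∃ w : grid.Walk q r, (∀ v ∈ w.support, v ∈ vrun D p) ∧ ∀ a y : ℤ, cx a y w = 0 := by
  obtain ⟨h1, h2⟩ := hq
  obtain ⟨h3, h4⟩ := hr
  have hex : ∃ w : grid.Walk q r, (∀ v ∈ w.support, v.1 = q.1 ∧
      ((q.2 ≤ v.2 ∧ v.2 ≤ r.2) ∨ (r.2 ≤ v.2 ∧ v.2 ≤ q.2))) ∧ ∀ a y : ℤ, cx a y w = 0 := by
    rcases le_total q.2 r.2 with h5 | h5
    · obtain ⟨n, hn⟩ := Int.eq_ofNat_of_zero_le (sub_nonneg.2 h5)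
      exact ma_seg 1 (Or.inl rfl) n q r (h3.trans h1.symm) (by
        rw [← hn]
        ring)
    · obtain ⟨n, hn⟩ := Int.eq_ofNat_of_zero_le (sub_nonneg.2 h5)
      exact ma_seg (-1) (Or.inr rfl) n q r (h3.trans h1.symm) (by
        rw [← hn]
        ring)
  obtain ⟨w, hw, hw2⟩ := hex
  refine ⟨w, fun v hv => ?_, hw2⟩
  obtain ⟨h5, h6⟩ := hw v hv
  refine ⟨h5.trans h1, fun y hy => ?_⟩
  by_cases h7 : (p.2 ≤ y ∧ y ≤ q.2) ∨ (q.2 ≤ y ∧ y ≤ p.2)
  · exact h2 y h7
  · exact h4 y (by omega)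

theorem vrun_joined {D : Set Cell} {p q r : Cell} (hq : q ∈ vrun D p) (hr : r ∈ vrun D p) :
    Joined (vrun D p) q r := by
  obtain ⟨w, hw, -⟩ := ma_walk hq hr
  exact ⟨w, hw⟩

theorem vrun_adj {D : Set Cell} {p q r : Cell} (hq : q ∈ vrun D p) (hr : r ∈ D)
    (hqr : grid.Adj q r) (hn : r ∉ vrun D p) : r.2 = q.2 ∧ (r.1 = q.1 + 1 ∨ q.1 = r.1 + 1) := by
  rw [grid_adj] at hqr
  rcases hqr with ⟨h1, h2⟩ | ⟨h1, h2⟩
  · exfalso
    apply hn
    obtain ⟨h3, h4⟩ := hq
    refine ⟨h1.symm.trans h3, fun y hy => ?_⟩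
    by_cases h5 : y = r.2
    · have h6 : ((p.1, y) : Cell) = r := Prod.ext (h3.symm.trans h1) h5
      rw [h6]
      exact hr
    · exact h4 y (by omega)
  · exact ⟨h1.symm, h2⟩

theorem vrun_ends {D : Set Cell} (hD : D.Finite) {p : Cell} (hp : p ∈ D) :
    ∃ j1 j2 : ℤ, j1 ≤ p.2 ∧ p.2 ≤ j2 ∧ (p.1, j1 - 1) ∉ D ∧ (p.1, j2 + 1) ∉ D ∧
      ∀ q : Cell, q ∈ vrun D p ↔ q.1 = p.1 ∧ j1 ≤ q.2 ∧ q.2 ≤ j2 := by
  have key : ∀ σ : ℤ, σ = 1 ∨ σ = -1 → ∃ n : ℕ, (p.1, p.2 + σ * (n + 1)) ∉ D ∧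
      ∀ m : ℕ, m ≤ n → (p.1, p.2 + σ * m) ∈ D := by
    intro σ hσ
    have h1 : ∃ n : ℕ, (p.1, p.2 + σ * (n : ℤ)) ∉ D := by
      by_contra h2
      push Not at h2
      refine (Set.infinite_of_injective_forall_mem (f := fun n : ℕ => (p.1, p.2 + σ * (n : ℤ)))
        ?_ h2) hD
      intro a b hab
      have h3 := congrArg Prod.snd hab
      simp only at h3
      have h4 : σ * (a : ℤ) = σ * b := by linarith
      rcases hσ with h | h <;> rw [h] at h4 <;> omega
    classical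
    have h2 := Nat.find_spec h1
    have h3 : Nat.find h1 ≠ 0 := by
      intro h4
      rw [h4] at h2
      apply h2
      have h5 : ((p.1, p.2 + σ * ((0 : ℕ) : ℤ)) : Cell) = p := by simp
      rw [h5]
      exact hp
    obtain ⟨n, hn⟩ := Nat.exists_eq_succ_of_ne_zero h3
    refine ⟨n, ?_, fun m hm => ?_⟩
    · rw [hn] at h2
      push_cast at h2
      exact h2
    · by_contra h4
      exact Nat.find_min h1 (by omega) h4
  obtain ⟨n₁, h1, h2⟩ := key (-1) (Or.inr rfl)
  obtain ⟨n₂, h3, h4⟩ := key 1 (Or.inl rfl)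
  have h2' : ∀ y : ℤ, p.2 - n₁ ≤ y → y ≤ p.2 → (p.1, y) ∈ D := by
    intro y hy hy2
    obtain ⟨m, hm⟩ := Int.eq_ofNat_of_zero_le (sub_nonneg.2 hy2)
    have h5 := h2 m (by omega)
    have h6 : p.2 + -1 * (m : ℤ) = y := by
      rw [← hm]
      ring
    rwa [h6] at h5
  have h4' : ∀ y : ℤ, p.2 ≤ y → y ≤ p.2 + n₂ → (p.1, y) ∈ D := by
    intro y hy hy2
    obtain ⟨m, hm⟩ := Int.eq_ofNat_of_zero_le (sub_nonneg.2 hy)
    have h5 := h4 m (by omega)
    have h6 : p.2 + 1 * (m : ℤ) = y := by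
      rw [← hm]
      ring
    rwa [h6] at h5
  have h1' : (p.1, p.2 - n₁ - 1) ∉ D := by
    have h6 : p.2 + -1 * ((n₁ : ℤ) + 1) = p.2 - n₁ - 1 := by ring
    rwa [h6] at h1
  have h3' : (p.1, p.2 + n₂ + 1) ∉ D := by
    have h6 : p.2 + 1 * ((n₂ : ℤ) + 1) = p.2 + n₂ + 1 := by ring
    rwa [h6] at h3
  refine ⟨p.2 - n₁, p.2 + n₂, by omega, by omega, h1', h3', fun q => ⟨?_, ?_⟩⟩
  · rintro ⟨h5, h6⟩
    refine ⟨h5, ?_, ?_⟩
    · by_contra h7
      exact h1' (h6 _ (by omega))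
    · by_contra h7
      exact h3' (h6 _ (by omega))
  · rintro ⟨h5, h6, h7⟩
    refine ⟨h5, fun y hy => ?_⟩
    rcases hy with hy | hy
    · exact h4' y hy.1 (by omega)
    · exact h2' y (by omega) hy.2

/-- A walk inside a run has no horizontal crossings. -/
theorem vrun_walk {D : Set Cell} {p q r : Cell} (hq : q ∈ vrun D p) (hr : r ∈ vrun D p) :
    ∃ w : grid.Walk q r, (∀ v ∈ w.support, v ∈ vrun D p) ∧ ∀ a y : ℤ, cx a y w = 0 := by
  exact ma_walk hq hr
/- END ma -/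

/- MODULE mb
TWO NEIGHBOURS OF A RUN WHICH ARE JOINED OFF THE RUN ARE IN THE SAME RUN.  `R = vrun D p`, column `i`,
ends `j1, j2` (`vrun_ends`); `x ~ x'`, `y ~ y'`, `x', y' ∈ R`, `γ` a walk from `x` to `y` in `D \ R`.  The
closed walk `c = x' → x, γ, y → y'`, and back to `x'` inside `R` (`vrun_walk`).  `(i, j1-1)`, `(i, j2+1)`
are off `D`, so `cr` is `0` there (`cr_eq_zero`).
If `x.1 = i + 1`, `y.1 = i - 1` (or reversed): `cr i (j1-1) c - cr i (j2+1) c = ∑ cx i y` over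
`y ∈ Ioc (j1-1) (j2+1)` (`cr_sub`); for `j1 ≤ y ≤ j2` only the step `x' → x` contributes (`γ` avoids `R`), for
`y = j2 + 1` nothing: the sum is `±1`, contradiction.
If `x.1 = y.1 = i + 1` and `y ∉ vrun D x`: there is `j` strictly between `x.2` and `y.2` with
`(i+1, j) ∉ D`.  `cr i j c = cr (i+1) j c = 0` (`cr_right`, `cr_eq_zero`) and `cr i (j2+1) c = 0`; the
difference is the sum of `cx i y c` over `Ioc j (j2+1)`, to which exactly one of the two steps
`x' → x`, `y → y'` contributes: `±1`, contradiction.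
If `x.1 = y.1 = i - 1`: `(i-1, j) ∉ D` with `j` between; `cr (i-1) j c = 0`, and
`cr (i-1) (j2+1) c = cr i (j2+1) c = 0` (`cr_right`, `(i, j2+1) ∉ D`); the difference is the sum of
`cx (i-1) y c`, again `±1`. -/
theorem run_unique {D : Set Cell} (hD : Good D) {p x y x' y' : Cell} (hp : p ∈ D)
    (hx' : x' ∈ vrun D p) (hy' : y' ∈ vrun D p) (hxx : grid.Adj x' x) (hyy : grid.Adj y' y)
    (hxy : Joined (D \ vrun D p) x y) : y ∈ vrun D x := by
  obtain ⟨j1, j2, hj1, hj2, he1, he2, hR⟩ := vrun_ends hD.fin hp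
  obtain ⟨hxm, hym⟩ := hxy.mem
  obtain ⟨hx1, hx2⟩ := vrun_adj hx' hxm.1 hxx hxm.2
  obtain ⟨hy1, hy2⟩ := vrun_adj hy' hym.1 hyy hym.2
  obtain ⟨hx'1, hx'2, hx'3⟩ := (hR x').1 hx'
  obtain ⟨hy'1, hy'2, hy'3⟩ := (hR y').1 hy'
  obtain ⟨γ, hγ⟩ := hxy
  obtain ⟨ρ, hρ, hρ2⟩ := vrun_walk hy' hx'
  obtain ⟨c, hc⟩ : ∃ c : grid.Walk x' x', c = SimpleGraph.Walk.cons hxx
      (γ.append (SimpleGraph.Walk.cons hyy.symm ρ)) := ⟨_, rfl⟩
  have hcD : ∀ v ∈ c.support, v ∈ D := by
    intro v hv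
    rw [hc, SimpleGraph.Walk.support_cons, List.mem_cons, SimpleGraph.Walk.mem_support_append_iff,
      SimpleGraph.Walk.support_cons, List.mem_cons] at hv
    rcases hv with rfl | hv | rfl | hv
    · exact vrun_sub hx'
    · exact (hγ v hv).1
    · exact hym.1
    · exact vrun_sub (hρ v hv)
  have hcx : ∀ a b : ℤ, (a = p.1 ∨ a + 1 = p.1) → j1 ≤ b → b ≤ j2 + 1 → cx a b c =
      ((if x' = (a, b) ∧ x = (a + 1, b) then (1 : ℤ) else 0) -
        (if x' = (a + 1, b) ∧ x = (a, b) then 1 else 0)) +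
      ((if y = (a, b) ∧ y' = (a + 1, b) then (1 : ℤ) else 0) -
        (if y = (a + 1, b) ∧ y' = (a, b) then 1 else 0)) := by
    intro a b ha hb1 hb2
    have h1 : cx a b γ = 0 := by
      have h2 : ∀ v ∈ γ.support, v ≠ (p.1, b) := by
        rintro v hv rfl
        obtain ⟨h3, h4⟩ := hγ _ hv
        by_cases h5 : b = j2 + 1
        · subst h5
          exact he2 h3
        · exact h4 ((hR _).2 ⟨rfl, hb1, by
            show b ≤ j2
            omega⟩)
      apply cx_eq_zero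
      rcases ha with h3 | h3
      · left
        rw [h3]
        exact h2
      · right
        rw [h3]
        exact h2
    rw [hc, cx_cons, cx_append, cx_cons, h1, hρ2]
    ring
  have hz : ∀ e : Cell, e ∉ D → cr e.1 e.2 c = 0 := fun e he => cr_eq_zero hD hcD he
  have hz1 : cr p.1 (j1 - 1) c = 0 := hz _ he1
  have hz2 : cr p.1 (j2 + 1) c = 0 := hz _ he2
  have hX : x'.2 = x.2 := hx1.symm
  have hY : y'.2 = y.2 := hy1.symm
  -- the values of the steps
  have hs1 : x.1 = p.1 + 1 → ∀ b, ((if x' = (p.1, b) ∧ x = (p.1 + 1, b) then (1 : ℤ) else 0) -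
        (if x' = (p.1 + 1, b) ∧ x = (p.1, b) then 1 else 0)) = if b = x.2 then 1 else 0 := by
    intro h1 b
    rw [if_neg (fun h : x' = (p.1 + 1, b) ∧ x = (p.1, b) => by
      have h2 := congrArg Prod.fst h.1
      simp only at h2
      omega), sub_zero]
    by_cases hb : b = x.2
    · rw [if_pos hb, if_pos ⟨Prod.ext hx'1 (by rw [hX, hb]), Prod.ext h1 (by rw [hb])⟩]
    · rw [if_neg hb, if_neg (fun h => hb (congrArg Prod.snd h.2).symm)]
  have hs1' : x.1 = p.1 - 1 → ∀ b, ((if x' = (p.1, b) ∧ x = (p.1 + 1, b) then (1 : ℤ) else 0) -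
        (if x' = (p.1 + 1, b) ∧ x = (p.1, b) then 1 else 0)) = 0 := by
    intro h1 b
    rw [if_neg (fun h : x' = (p.1 + 1, b) ∧ x = (p.1, b) => by
      have h2 := congrArg Prod.fst h.1
      simp only at h2
      omega), if_neg (fun h : x' = (p.1, b) ∧ x = (p.1 + 1, b) => by
      have h2 := congrArg Prod.fst h.2
      simp only at h2
      omega), sub_zero]
  have hs2 : y.1 = p.1 + 1 → ∀ b, ((if y = (p.1, b) ∧ y' = (p.1 + 1, b) then (1 : ℤ) else 0) -
        (if y = (p.1 + 1, b) ∧ y' = (p.1, b) then 1 else 0)) = if b = y.2 then -1 else 0 := by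
    intro h1 b
    rw [if_neg (fun h : y = (p.1, b) ∧ y' = (p.1 + 1, b) => by
      have h2 := congrArg Prod.fst h.2
      simp only at h2
      omega), zero_sub]
    by_cases hb : b = y.2
    · rw [if_pos hb, if_pos ⟨Prod.ext h1 (by rw [hb]), Prod.ext hy'1 (by rw [hY, hb])⟩]
    · rw [if_neg hb, if_neg (fun h => hb (congrArg Prod.snd h.1).symm), neg_zero]
  have hs2' : y.1 = p.1 - 1 → ∀ b, ((if y = (p.1, b) ∧ y' = (p.1 + 1, b) then (1 : ℤ) else 0) -
        (if y = (p.1 + 1, b) ∧ y' = (p.1, b) then 1 else 0)) = 0 := by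
    intro h1 b
    rw [if_neg (fun h : y = (p.1, b) ∧ y' = (p.1 + 1, b) => by
      have h2 := congrArg Prod.fst h.2
      simp only at h2
      omega), if_neg (fun h : y = (p.1 + 1, b) ∧ y' = (p.1, b) => by
      have h2 := congrArg Prod.fst h.1
      simp only at h2
      omega), sub_zero]
  have hsum : ∀ (a : ℤ), (a = p.1 ∨ a + 1 = p.1) → ∀ (β u v : ℤ), j1 - 1 ≤ β → β ≤ j2 →
      (∀ b, ((if x' = (a, b) ∧ x = (a + 1, b) then (1 : ℤ) else 0) -
        (if x' = (a + 1, b) ∧ x = (a, b) then 1 else 0)) = if b = x.2 then u else 0) →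
      (∀ b, ((if y = (a, b) ∧ y' = (a + 1, b) then (1 : ℤ) else 0) -
        (if y = (a + 1, b) ∧ y' = (a, b) then 1 else 0)) = if b = y.2 then v else 0) →
      cr a β c - cr a (j2 + 1) c =
        (if β < x.2 then u else 0) + if β < y.2 then v else 0 := by
    intro a ha β u v hβ hβ2 hu hv
    rw [cr_sub a (by omega) c]
    have h1 : ∀ b ∈ Finset.Ioc β (j2 + 1), cx a b c =
        (if b = x.2 then u else 0) + if b = y.2 then v else 0 := by
      intro b hb
      rw [Finset.mem_Ioc] at hb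
      rw [hcx a b ha (by omega) hb.2, hu, hv]
    rw [Finset.sum_congr rfl h1, Finset.sum_add_distrib, Finset.sum_ite_eq', Finset.sum_ite_eq']
    congr 1
    · congr 1
      rw [Finset.mem_Ioc]
      exact propext ⟨fun h => h.1, fun h => ⟨h, by omega⟩⟩
    · congr 1
      rw [Finset.mem_Ioc]
      exact propext ⟨fun h => h.1, fun h => ⟨h, by omega⟩⟩
  by_contra hne
  have hbet : x.1 = y.1 → ∃ j : ℤ, (x.1, j) ∉ D ∧ ((x.2 < j ∧ j < y.2) ∨ (y.2 < j ∧ j < x.2)) := by
    intro h1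
    have h2 : ¬ ∀ b : ℤ, (x.2 ≤ b ∧ b ≤ y.2) ∨ (y.2 ≤ b ∧ b ≤ x.2) → (x.1, b) ∈ D :=
      fun h => hne ⟨h1.symm, h⟩
    push Not at h2
    obtain ⟨j, h3, h4⟩ := h2
    refine ⟨j, h4, ?_⟩
    have h5 : j ≠ x.2 := by
      rintro rfl
      exact h4 hxm.1
    have h6 : j ≠ y.2 := by
      rintro rfl
      rw [h1] at h4
      exact h4 hym.1
    omega
  have hx3 : x.1 = p.1 + 1 ∨ x.1 = p.1 - 1 := by
    rcases hx2 with h | h
    · left
      rw [h, hx'1]
    · right
      rw [← hx'1, h]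
      ring
  have hy3 : y.1 = p.1 + 1 ∨ y.1 = p.1 - 1 := by
    rcases hy2 with h | h
    · left
      rw [h, hy'1]
    · right
      rw [← hy'1, h]
      ring
  rcases hx3 with h1 | h1 <;> rcases hy3 with h2 | h2
  · obtain ⟨j, hj, hj'⟩ := hbet (h1.trans h2.symm)
    rw [h1] at hj
    have h3 : cr (p.1 + 1) j c = 0 := hz _ hj
    have h4 : cr p.1 j c = 0 := by
      rw [cr_right (fun v hv => by
        rintro rfl
        exact hj (hcD _ hv)), h3]
    have h5 := hsum p.1 (Or.inl rfl) j 1 (-1) (by omega) (by omega) (hs1 h1) (hs2 h2)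
    rw [h4, hz2] at h5
    rcases hj' with hj' | hj'
    · rw [if_neg (by omega), if_pos (by omega)] at h5
      omega
    · rw [if_pos (by omega), if_neg (by omega)] at h5
      omega
  · have h5 := hsum p.1 (Or.inl rfl) (j1 - 1) 1 0 (by omega) (by omega) (hs1 h1) (fun b => by
      rw [hs2' h2 b]
      split_ifs <;> rfl)
    rw [hz1, hz2, if_pos (by omega), if_pos (by omega)] at h5
    omega
  · have h5 := hsum p.1 (Or.inl rfl) (j1 - 1) 0 (-1) (by omega) (by omega) (fun b => by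
      rw [hs1' h1 b]
      split_ifs <;> rfl) (hs2 h2)
    rw [hz1, hz2, if_pos (by omega), if_pos (by omega)] at h5
    omega
  · obtain ⟨j, hj, hj'⟩ := hbet (h1.trans h2.symm)
    rw [h1] at hj
    have h3 : cr (p.1 - 1) j c = 0 := hz _ hj
    have h4 : cr (p.1 - 1) (j2 + 1) c = 0 := by
      have h6 : cr (p.1 - 1) (j2 + 1) c = cr (p.1 - 1 + 1) (j2 + 1) c :=
        cr_right (fun v hv => by
          rintro rfl
          rw [sub_add_cancel] at hv
          exact he2 (hcD _ hv))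
      rw [h6, sub_add_cancel, hz2]
    have h5 := hsum (p.1 - 1) (Or.inr (by ring)) j (-1) 1 (by omega) (by omega) (fun b => ?_)
      (fun b => ?_)
    · rw [h3, h4] at h5
      rcases hj' with hj' | hj'
      · rw [if_neg (by omega), if_pos (by omega)] at h5
        omega
      · rw [if_pos (by omega), if_neg (by omega)] at h5
        omega
    · rw [sub_add_cancel, if_neg (fun h : x' = (p.1 - 1, b) ∧ x = (p.1, b) => by
        have h2 := congrArg Prod.fst h.1
        simp only at h2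
        omega), zero_sub]
      by_cases hb : b = x.2
      · rw [if_pos hb, if_pos ⟨Prod.ext hx'1 (by rw [hX, hb]), Prod.ext h1 (by rw [hb])⟩]
      · rw [if_neg hb, if_neg (fun h => hb (congrArg Prod.snd h.2).symm), neg_zero]
    · rw [sub_add_cancel, if_neg (fun h : y = (p.1, b) ∧ y' = (p.1 - 1, b) => by
        have h2 := congrArg Prod.fst h.2
        simp only at h2
        omega), sub_zero]
      by_cases hb : b = y.2
      · rw [if_pos hb, if_pos ⟨Prod.ext h2 (by rw [hb]), Prod.ext hy'1 (by rw [hY, hb])⟩]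
      · rw [if_neg hb, if_neg (fun h => hb (congrArg Prod.snd h.1).symm)]
/- END mb -/

/- MODULE mc
THE MEDIAN RUN.  A run `R = vrun D q` is bad if two of the three cells (as indices) are joined in
`D \ R`.  Suppose all runs are bad; for a bad run and a pair let `U` be the set of cells joined to the pair
in `D \ R`; choose `q` and the pair with `U` of minimal size.  There is `x ∈ U` adjacent to a cell `x' ∈ R`
(`D` is connected, `Joined.exit` from the first cell of the pair to `q`).  `R' = vrun D x` is contained in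
`U`.  `R'` is bad: let `U'` be the piece of `D \ R'` with two of the three cells.
If `U' ∩ R = ∅`: every walk in `D \ R'` from a cell of `U'` stays off `R`; if `U'` met `U` it would be
contained in `U \ R'`, strictly smaller, contradiction; so `U' ∩ U = ∅`.
If `U'` meets `R` it also cannot meet `U`: a walk in `D \ R'` from `v ∈ U` to `R` has (`Joined.exit`, with
the set of cells joined to `v` in `D \ R`) a last cell `y ∈ U` before `R`, adjacent to `R`; by `run_unique`
`y ∈ vrun D x = R'`, contradiction.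
So `U ∩ U' = ∅`, but both contain two of three indices: contradiction. -/
theorem exists_vmed {D : Set Cell} (hD : Good D) {p1 p2 p3 : Cell} (h1 : p1 ∈ D) (h2 : p2 ∈ D)
    (h3 : p3 ∈ D) : ∃ q ∈ D, ¬ Joined (D \ vrun D q) p1 p2 ∧ ¬ Joined (D \ vrun D q) p2 p3 ∧
      ¬ Joined (D \ vrun D q) p1 p3 := by
  by_contra hbad
  push Not at hbad
  let P : Fin 3 → Cell := ![p1, p2, p3]
  have hP : ∀ i, P i ∈ D := by
    intro i
    fin_cases i
    · exact h1
    · exact h2
    · exact h3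
  have hb : ∀ q ∈ D, ∃ i j : Fin 3, i ≠ j ∧ Joined (D \ vrun D q) (P i) (P j) := by
    intro q hq
    by_cases h4 : Joined (D \ vrun D q) p1 p2
    · exact ⟨0, 1, by decide, h4⟩
    · by_cases h5 : Joined (D \ vrun D q) p2 p3
      · exact ⟨1, 2, by decide, h5⟩
      · exact ⟨0, 2, by decide, hbad q hq h4 h5⟩
  let U : Cell → Cell → Set Cell := fun q a => {v | Joined (D \ vrun D q) a v}
  have hUfin : ∀ q a, (U q a).Finite := fun q a => hD.fin.subset fun v hv => (hv.mem).2.1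
  let S : Set ℕ := {n | ∃ q ∈ D, ∃ i j : Fin 3, i ≠ j ∧ Joined (D \ vrun D q) (P i) (P j) ∧
    n = (U q (P i)).ncard}
  have hS : S.Nonempty := by
    obtain ⟨i, j, h4, h5⟩ := hb p1 h1
    exact ⟨_, p1, h1, i, j, h4, h5, rfl⟩
  obtain ⟨q, hq, i, j, hij, hJ, hn⟩ := Nat.sInf_mem hS
  have hmin : ∀ q' ∈ D, ∀ i' j' : Fin 3, i' ≠ j' → Joined (D \ vrun D q') (P i') (P j') →
      (U q (P i)).ncard ≤ (U q' (P i')).ncard := by
    intro q' hq' i' j' h4 h5
    rw [← hn]
    exact Nat.sInf_le ⟨q', hq', i', j', h4, h5, rfl⟩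
  have haU : P i ∈ U q (P i) := joined_self.2 hJ.mem.1
  have hqU : q ∉ U q (P i) := fun h => h.mem.2.2 (mem_vrun_self hq)
  have hstep : ∀ {u v : Cell}, u ∈ U q (P i) → v ∈ D → v ∉ U q (P i) → grid.Adj u v →
      v ∈ vrun D q := by
    intro u v hu hv hvU huv
    by_contra h4
    have h5 : Joined (D \ vrun D q) u v := Joined.of_adj hu.mem.2 ⟨hv, h4⟩ huv
    exact hvU (Joined.trans hu h5)
  obtain ⟨x, x', h4, h5, h6, h7⟩ := (hD.con (P i) (hP i) q hq).exit (A := U q (P i)) haU hqU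
  have hxU : x ∈ U q (P i) := h4.mem.2.1
  have hx'R : x' ∈ vrun D q := hstep hxU h5 h6 h7
  have hxD : x ∈ D := hxU.mem.2.1
  have hdisj : ∀ v, v ∈ vrun D x → v ∉ vrun D q := by
    intro v hv hv'
    have h8 : vrun D x = vrun D q := (vrun_eq hv).symm.trans (vrun_eq hv')
    exact hxU.mem.2.2 (h8 ▸ mem_vrun_self hxD)
  have hRU : ∀ v ∈ vrun D x, v ∈ U q (P i) := by
    intro v hv
    have h9 : vrun D x ⊆ D \ vrun D q := fun w hw => ⟨vrun_sub hw, hdisj w hw⟩
    have h8 : Joined (D \ vrun D q) x v :=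
      (vrun_joined (mem_vrun_self hxD) hv).mono h9
    exact Joined.trans hxU h8
  obtain ⟨i', j', hij', hJ'⟩ := hb x hxD
  have haU' : P i' ∈ U x (P i') := joined_self.2 hJ'.mem.1
  have hUU : ∀ v, v ∈ U q (P i) → v ∉ U x (P i') := by
    intro v hv hv'
    by_cases h8 : ∃ r ∈ vrun D q, r ∈ U x (P i')
    · obtain ⟨r, hr, hr'⟩ := h8
      have h9 : Joined (D \ vrun D x) v r := (Joined.symm hv').trans hr'
      obtain ⟨y, y', h10, h11, h12, h13⟩ := h9.exit (A := U q (P i)) hv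
        (fun h => h.mem.2.2 hr)
      have h14 := h10.mem.2
      have hy' : y' ∈ vrun D q := hstep h14.1 h11.1 h12 h13
      have hxy : Joined (D \ vrun D q) x y := (Joined.symm hxU).trans h14.1
      exact h14.2.2 (run_unique hD hq hx'R hy' h7.symm h13.symm hxy)
    · push Not at h8
      have h9 : U x (P i') ⊂ U q (P i) := by
        rw [Set.ssubset_iff_of_subset]
        · exact ⟨x, hxU, fun h => h.mem.2.2 (mem_vrun_self hxD)⟩
        · intro u hu
          obtain ⟨w, hw⟩ := (Joined.symm hv').trans hu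
          have h10 : Joined (D \ vrun D q) v u := by
            refine ⟨w, fun t ht => ⟨(hw t ht).1, fun htR => ?_⟩⟩
            refine h8 t htR (Joined.trans hv' ?_)
            exact ⟨w.takeUntil t ht, fun s hs => hw s (w.support_takeUntil_subset_support ht hs)⟩
          exact Joined.trans hv h10
      have h11 := Set.ncard_lt_ncard h9 (hUfin q (P i))
      have h12 := hmin x hxD i' j' hij' hJ'
      omega
  have hj : P j ∈ U q (P i) := hJ
  have hj' : P j' ∈ U x (P i') := hJ'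
  have h8 : i = i' ∨ i = j' ∨ j = i' ∨ j = j' := by omega
  rcases h8 with rfl | rfl | rfl | rfl
  · exact hUU _ haU haU'
  · exact hUU _ haU hj'
  · exact hUU _ hj haU'
  · exact hUU _ hj hj'
/- END mc -/

/- MODULE md
Transposition: `Prod.swap` preserves the grid, exchanges vertical and horizontal runs, and the image of
a good set is good. -/
private theorem md_swap {A : Set Cell} {p q : Cell} (h : Joined A p q) :
    Joined (Prod.swap ⁻¹' A) p.swap q.swap := by
  obtain ⟨w, hw⟩ := h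
  let f : grid →g grid :=
    { toFun := Prod.swap
      map_rel' := by
        intro a b hab
        rw [grid_adj] at hab ⊢
        exact hab.symm }
  refine ⟨w.map f, ?_⟩
  intro v hv
  rw [SimpleGraph.Walk.support_map, List.mem_map] at hv
  obtain ⟨u, hu, rfl⟩ := hv
  exact hw u hu

theorem joined_swap {A : Set Cell} {p q : Cell} :
    Joined (Prod.swap ⁻¹' A) p.swap q.swap ↔ Joined A p q := by
  constructor
  · intro h
    exact md_swap h
  · intro h
    exact md_swap h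

theorem good_swap {D : Set Cell} (hD : Good D) : Good (Prod.swap ⁻¹' D) := by
  refine ⟨?_, ?_, ?_⟩
  · exact hD.fin.preimage Prod.swap_injective.injOn
  · intro p hp q hq
    have h1 := md_swap (hD.con p.swap hp q.swap hq)
    rwa [Prod.swap_swap, Prod.swap_swap] at h1
  · intro e he N
    obtain ⟨e', h1, h2, h3⟩ := hD.full e.swap he N
    refine ⟨e'.swap, h2, h1, ?_⟩
    have h4 : ∀ a b : Cell, Relation.ReflTransGen
        (fun u v : Cell => v ∉ D ∧ |u.1 - v.1| ≤ 1 ∧ |u.2 - v.2| ≤ 1) a b →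
        Relation.ReflTransGen
        (fun u v : Cell => v ∉ Prod.swap ⁻¹' D ∧ |u.1 - v.1| ≤ 1 ∧ |u.2 - v.2| ≤ 1)
        a.swap b.swap := by
      intro a b hab
      induction hab with
      | refl => exact Relation.ReflTransGen.refl
      | tail _ hbc ih => exact ih.tail ⟨hbc.1, hbc.2.2, hbc.2.1⟩
    have h5 := h4 _ _ h3
    rwa [Prod.swap_swap] at h5

theorem hrun_swap {D : Set Cell} {p : Cell} :
    vrun (Prod.swap ⁻¹' D) p.swap = Prod.swap ⁻¹' (hrun D p) := by
  ext q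
  exact Iff.rfl

theorem vrun_swap {D : Set Cell} {p : Cell} :
    hrun (Prod.swap ⁻¹' D) p.swap = Prod.swap ⁻¹' (vrun D p) := by
  ext q
  exact Iff.rfl

theorem exists_hmed {D : Set Cell} (hD : Good D) {p1 p2 p3 : Cell} (h1 : p1 ∈ D) (h2 : p2 ∈ D)
    (h3 : p3 ∈ D) : ∃ q ∈ D, ¬ Joined (D \ hrun D q) p1 p2 ∧ ¬ Joined (D \ hrun D q) p2 p3 ∧
      ¬ Joined (D \ hrun D q) p1 p3 := by
  obtain ⟨q, hq, a1, a2, a3⟩ := exists_vmed (good_swap hD) (p1 := p1.swap) (p2 := p2.swap)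
    (p3 := p3.swap) h1 h2 h3
  have key : ∀ a b : Cell, Joined (D \ hrun D q.swap) a b →
      Joined (Prod.swap ⁻¹' D \ vrun (Prod.swap ⁻¹' D) q) a.swap b.swap := by
    intro a b h
    have h4 := md_swap h
    have h5 := hrun_swap (D := D) (p := q.swap)
    rw [Prod.swap_swap] at h5
    rw [h5]
    exact h4
  exact ⟨q.swap, hq, fun h => a1 (key _ _ h), fun h => a2 (key _ _ h), fun h => a3 (key _ _ h)⟩

theorem isMed_swap {D : Set Cell} {p q r m : Cell} (h : IsMed D p q r m) :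
    IsMed (Prod.swap ⁻¹' D) p.swap q.swap r.swap m.swap := by
  have key : ∀ a b : Cell, Joined (Prod.swap ⁻¹' D \ vrun (Prod.swap ⁻¹' D) m.swap)
      a.swap b.swap → Joined (D \ hrun D m) a b := by
    intro a b h4
    rw [hrun_swap] at h4
    exact joined_swap.1 h4
  have key' : ∀ a b : Cell, Joined (Prod.swap ⁻¹' D \ hrun (Prod.swap ⁻¹' D) m.swap)
      a.swap b.swap → Joined (D \ vrun D m) a b := by
    intro a b h4
    rw [vrun_swap] at h4
    exact joined_swap.1 h4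
  exact
    { mem := h.mem
      v1 := fun h4 => h.h1 (key _ _ h4)
      v2 := fun h4 => h.h2 (key _ _ h4)
      v3 := fun h4 => h.h3 (key _ _ h4)
      h1 := fun h4 => h.v1 (key' _ _ h4)
      h2 := fun h4 => h.v2 (key' _ _ h4)
      h3 := fun h4 => h.v3 (key' _ _ h4) }
/- END md -/

/- MODULE me
Two disjoint connected subsets `V`, `H` of a connected `D` (connected: any two cells are joined inside):
let `U` be the set of cells joined to a cell of `H` in `D \ V`.  Then any two cells of `D \ U` are joined in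
`D \ H`: every cell `x` of `D \ U` is joined to a cell of `V` inside `D \ U` (take a walk in `D` from `x` to a
cell of `V`, the part before the first cell of `V` is in `D \ V`, so in one piece, which is not `U`), and
`D \ U ⊆ D \ H`, `V ⊆ D \ U`. -/
private theorem me_to {D V H : Set Cell} (hV : V ⊆ D) (hH : H ⊆ D) (hVn : V.Nonempty)
    (hD : ∀ p ∈ D, ∀ q ∈ D, Joined D p q)
    (hHc : ∀ p ∈ H, ∀ q ∈ H, Joined H p q) (hd : Disjoint V H) {h x : Cell} (hh : h ∈ H)
    (hx : x ∈ D) (hxU : ¬ Joined (D \ V) h x) : ∃ v ∈ V, Joined (D \ H) x v := by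
  have hVH : V ⊆ D \ H := fun u hu => ⟨hV hu, fun h2 => Set.disjoint_left.1 hd hu h2⟩
  have hHV : H ⊆ D \ V := fun u hu => ⟨hH hu, fun h2 => Set.disjoint_left.1 hd h2 hu⟩
  by_cases hxV : x ∈ V
  · exact ⟨x, hxV, joined_self.2 (hVH hxV)⟩
  obtain ⟨v0, hv0⟩ := hVn
  obtain ⟨x', y', h1, h2, h3, h4⟩ := Joined.exit (A := D \ V) (hD x hx v0 (hV hv0))
    ⟨hx, hxV⟩ (fun h5 => h5.2 hv0)
  have hy' : y' ∈ V := by
    by_contra h5
    exact h3 ⟨h2, h5⟩
  obtain ⟨w, hw⟩ := h1
  have key : ∀ u ∈ w.support, u ∈ D \ H := by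
    intro u hu
    refine ⟨(hw u hu).2, fun huH => hxU ?_⟩
    have h5 : Joined (D \ V) x u :=
      ⟨w.takeUntil u hu, fun t ht => (hw t (w.support_takeUntil_subset_support hu ht)).1⟩
    exact ((hHc h hh u huH).mono hHV).trans h5.symm
  have h6 : Joined (D \ H) x x' := ⟨w, key⟩
  exact ⟨y', hy', h6.trans (Joined.of_adj h6.mem.2 (hVH hy') h4)⟩

theorem sides {D V H : Set Cell} (hV : V ⊆ D) (hH : H ⊆ D) (hVn : V.Nonempty)
    (hD : ∀ p ∈ D, ∀ q ∈ D, Joined D p q) (hVc : ∀ p ∈ V, ∀ q ∈ V, Joined V p q)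
    (hHc : ∀ p ∈ H, ∀ q ∈ H, Joined H p q) (hd : Disjoint V H) {h x y : Cell} (hh : h ∈ H)
    (hx : x ∈ D) (hy : y ∈ D) (hxU : ¬ Joined (D \ V) h x) (hyU : ¬ Joined (D \ V) h y) :
    Joined (D \ H) x y := by
  obtain ⟨v, hv, hxv⟩ := me_to hV hH hVn hD hHc hd hh hx hxU
  obtain ⟨v', hv', hyv⟩ := me_to hV hH hVn hD hHc hd hh hy hyU
  have h1 : V ⊆ D \ H := fun u hu => ⟨hV hu, fun h2 => Set.disjoint_left.1 hd hu h2⟩
  exact (hxv.trans ((hVc v hv v' hv').mono h1)).trans hyv.symm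
/- END me -/

/- MODULE mf
THE MEDIAN.  `V` a vertical run as in `exists_vmed`, `H` a horizontal run as in `exists_hmed`.  If they
are disjoint, let `h ∈ H`: at most one of the three cells is joined to `h` in `D \ V` (two of them would be
joined to each other in `D \ V`), so two of them are not, and by `sides` these two are joined in `D \ H`:
contradiction.  So there is `m ∈ V ∩ H`, and `V = vrun D m`, `H = hrun D m` (`vrun_eq` and its
transpose). -/
private theorem mf_self {D : Set Cell} {p : Cell} (hp : p ∈ D) : p ∈ hrun D p := by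
  refine ⟨rfl, fun x hx => ?_⟩
  have h1 : x = p.1 := by omega
  rw [h1]
  exact hp

private theorem mf_sub {D : Set Cell} {p : Cell} : hrun D p ⊆ D := by
  intro q hq
  obtain ⟨h1, h2⟩ := hq
  have h3 := h2 q.1 (by omega)
  rw [← h1] at h3
  exact h3

private theorem mf_eq {D : Set Cell} {p q : Cell} (h : q ∈ hrun D p) : hrun D q = hrun D p := by
  obtain ⟨h1, h2⟩ := h
  ext r
  constructor
  · rintro ⟨h3, h4⟩
    refine ⟨h3.trans h1, fun y hy => ?_⟩
    by_cases h5 : (p.1 ≤ y ∧ y ≤ q.1) ∨ (q.1 ≤ y ∧ y ≤ p.1)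
    · exact h2 y h5
    · rw [← h1]
      exact h4 y (by omega)
  · rintro ⟨h3, h4⟩
    refine ⟨h3.trans h1.symm, fun y hy => ?_⟩
    rw [h1]
    by_cases h5 : (p.1 ≤ y ∧ y ≤ q.1) ∨ (q.1 ≤ y ∧ y ≤ p.1)
    · exact h2 y h5
    · exact h4 y (by omega)

theorem exists_med {D : Set Cell} (hD : Good D) {p q r : Cell} (hp : p ∈ D) (hq : q ∈ D)
    (hr : r ∈ D) : ∃ m, IsMed D p q r m := by
  obtain ⟨q₁, hq₁, a1, a2, a3⟩ := exists_vmed hD hp hq hr
  obtain ⟨q₂, hq₂, b1, b2, b3⟩ := exists_hmed hD hp hq hr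
  have hHD : hrun D q₂ ⊆ D := mf_sub
  have hHc : ∀ u ∈ hrun D q₂, ∀ v ∈ hrun D q₂, Joined (hrun D q₂) u v := by
    intro u hu v hv
    rw [← joined_swap, ← hrun_swap]
    refine vrun_joined ?_ ?_
    · rw [hrun_swap]
      exact hu
    · rw [hrun_swap]
      exact hv
  have hmeet : ¬ Disjoint (vrun D q₁) (hrun D q₂) := by
    intro hd
    have key : ∀ x ∈ D, ∀ y ∈ D, ¬ Joined (D \ vrun D q₁) q₂ x →
        ¬ Joined (D \ vrun D q₁) q₂ y → Joined (D \ hrun D q₂) x y := by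
      intro x hx y hy hxU hyU
      exact sides vrun_sub hHD ⟨q₁, mem_vrun_self hq₁⟩ hD.con
        (fun u hu v hv => vrun_joined hu hv) hHc hd (mf_self hq₂) hx hy hxU hyU
    by_cases h1 : Joined (D \ vrun D q₁) q₂ p
    · exact b2 (key q hq r hr (fun h => a1 (h1.symm.trans h)) fun h => a3 (h1.symm.trans h))
    · by_cases h2 : Joined (D \ vrun D q₁) q₂ q
      · exact b3 (key p hp r hr h1 fun h => a2 (h2.symm.trans h))
      · exact b1 (key p hp q hq h1 h2)
  rw [Set.not_disjoint_iff] at hmeet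
  obtain ⟨m, hm1, hm2⟩ := hmeet
  have e1 : vrun D m = vrun D q₁ := vrun_eq hm1
  have e2 : hrun D m = hrun D q₂ := mf_eq hm2
  refine ⟨m, ⟨vrun_sub hm1, ?_, ?_, ?_, ?_, ?_, ?_⟩⟩
  · rw [e1]; exact a1
  · rw [e1]; exact a2
  · rw [e1]; exact a3
  · rw [e2]; exact b1
  · rw [e2]; exact b2
  · rw [e2]; exact b3

/-- `IsMed` is symmetric in the last two cells (and the first two). -/
theorem IsMed.symm {D : Set Cell} {p q r m : Cell} (h : IsMed D p q r m) : IsMed D p r q m := by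
  exact ⟨h.mem, h.v3, fun h1 => h.v2 h1.symm, h.v1, h.h3, fun h1 => h.h2 h1.symm, h.h1⟩

theorem IsMed.rot {D : Set Cell} {p q r m : Cell} (h : IsMed D p q r m) : IsMed D q r p m := by
  exact ⟨h.mem, h.v2, fun h1 => h.v3 h1.symm, fun h1 => h.v1 h1.symm, h.h2,
    fun h1 => h.h3 h1.symm, fun h1 => h.h1 h1.symm⟩

/-- `¬ Joined (D \ R) q q` means `q ∈ R` (for `q ∈ D`); `m` is the only cell with the column and the row
of `q` then: `q ∈ vrun D m`, `q ∈ hrun D m` give `q = m`. -/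
theorem IsMed.eq {D : Set Cell} {p q m : Cell} (hq : q ∈ D) (h : IsMed D p q q m) : m = q := by
  have h1 : q ∈ vrun D m := by
    by_contra h2
    exact h.v2 (joined_self.2 ⟨hq, h2⟩)
  have h3 : q ∈ hrun D m := by
    by_contra h2
    exact h.h2 (joined_self.2 ⟨hq, h2⟩)
  exact Prod.ext h1.1.symm h3.1.symm
/- END mf -/

/- MODULE mg
THE LIPSCHITZ PROPERTY.  `m` median of `o, a, b`, `m'` median of `o, a, b'`, `V = vrun D m`,
`V' = vrun D m'`.  If `V = V'` the columns are equal.  Otherwise `V`, `V'` are disjoint.  Let `U` be the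
piece of `D \ V` which contains `V'` (cells joined to `m'` in `D \ V`), `U'` the piece of `D \ V'` which
contains `V`.  By `sides` any two cells of `D \ U` are joined in `D \ V'`, in particular (with
`m ∈ V ⊆ D \ U`) `D \ U ⊆ U'`.  At most one of `o, a, b` is in `U`, so at least two are in `D \ U ⊆ U'`; at most
one of `o, a, b'` is in `U'`; so `b ∉ U`, exactly one of `o, a` is in `U'`, hence `b' ∉ U'`, and `b' ∈ U`
(symmetric inclusion `D \ U' ⊆ U`).  The walk from `b ∉ U` to `b' ∈ U` inside `D` meets `V` (a step from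
`D \ U` into `U` starts in `V`, or `b ∈ V`): let `v ∈ V` be a cell of the walk, so `c1 ≤ m.1 = v.1 ≤ c2`.
In the same way it meets `V'` (`b ∈ U'`, `b' ∉ U'`): `c1 ≤ m'.1 ≤ c2`. -/
private theorem mg_gen {D V V' P : Set Cell} (hD : ∀ p ∈ D, ∀ q ∈ D, Joined D p q) (hV : V ⊆ D)
    (hV' : V' ⊆ D) (hVc : ∀ p ∈ V, ∀ q ∈ V, Joined V p q)
    (hVc' : ∀ p ∈ V', ∀ q ∈ V', Joined V' p q) (hd : Disjoint V V') {m m' : Cell} (hm : m ∈ V)
    (hm' : m' ∈ V') {o a b b' : Cell} (ho : o ∈ D) (ha : a ∈ D) (v1 : ¬ Joined (D \ V) o a)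
    (v2 : ¬ Joined (D \ V) a b) (v3 : ¬ Joined (D \ V) o b) (w1 : ¬ Joined (D \ V') o a)
    (w2 : ¬ Joined (D \ V') a b') (w3 : ¬ Joined (D \ V') o b') (hw : Joined (D ∩ P) b b') :
    (∃ y ∈ V, y ∈ P) ∧ ∃ y ∈ V', y ∈ P := by
  have hb : b ∈ D := hw.mem.1.1
  have hb' : b' ∈ D := hw.mem.2.1
  have hmU : ¬ Joined (D \ V) m' m := fun h => h.mem.2.2 hm
  have hmU' : ¬ Joined (D \ V') m m' := fun h => h.mem.2.2 hm'
  have hA : ∀ x ∈ D, ¬ Joined (D \ V) m' x → Joined (D \ V') m x := fun x hx hxU =>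
    sides hV hV' ⟨m, hm⟩ hD hVc hVc' hd hm' (hV hm) hx hmU hxU
  have hB : ∀ x ∈ D, ¬ Joined (D \ V') m x → Joined (D \ V) m' x := fun x hx hxU =>
    sides hV' hV ⟨m', hm'⟩ hD hVc' hVc hd.symm hm (hV' hm') hx hmU' hxU
  have h1 : ¬ Joined (D \ V) m' b := by
    intro h
    have ho' : ¬ Joined (D \ V) m' o := fun h' => v3 (h'.symm.trans h)
    have ha' : ¬ Joined (D \ V) m' a := fun h' => v2 (h'.symm.trans h)
    exact w1 ((hA o ho ho').symm.trans (hA a ha ha'))
  have h2 : Joined (D \ V') m b := hA b hb h1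
  have h3 : ¬ Joined (D \ V') m b' := by
    intro h
    have ho' : ¬ Joined (D \ V') m o := fun h' => w3 (h'.symm.trans h)
    have ha' : ¬ Joined (D \ V') m a := fun h' => w2 (h'.symm.trans h)
    exact v1 ((hB o ho ho').symm.trans (hB a ha ha'))
  have h4 : Joined (D \ V) m' b' := hB b' hb' h3
  refine ⟨?_, ?_⟩
  · obtain ⟨x, y, hx, hy, hyn, hxy⟩ := Joined.exit (A := {z | Joined (D \ V) m' z}) hw.symm h4 h1
    have hxU : Joined (D \ V) m' x := hx.mem.2.1
    refine ⟨y, ?_, hy.2⟩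
    by_contra hyV
    exact hyn (hxU.trans (Joined.of_adj hxU.mem.2 ⟨hy.1, hyV⟩ hxy))
  · obtain ⟨x, y, hx, hy, hyn, hxy⟩ := Joined.exit (A := {z | Joined (D \ V') m z}) hw h2 h3
    have hxU : Joined (D \ V') m x := hx.mem.2.1
    refine ⟨y, ?_, hy.2⟩
    by_contra hyV
    exact hyn (hxU.trans (Joined.of_adj hxU.mem.2 ⟨hy.1, hyV⟩ hxy))

theorem med_lip_col {D : Set Cell} (hD : Good D) {o a b b' m m' : Cell} (ho : o ∈ D) (ha : a ∈ D)
    (h : IsMed D o a b m) (h' : IsMed D o a b' m') {c1 c2 : ℤ} (hc : c1 ≤ c2)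
    (hw : Joined (D ∩ {v : Cell | c1 ≤ v.1 ∧ v.1 ≤ c2}) b b') : |m.1 - m'.1| ≤ c2 - c1 := by
  have hm := h.mem
  have hm' := h'.mem
  by_cases hmm : m' ∈ vrun D m
  · have h1 : m'.1 = m.1 := hmm.1
    rw [h1, sub_self, abs_zero]
    omega
  · have hd : Disjoint (vrun D m) (vrun D m') := by
      rw [Set.disjoint_left]
      intro q hq hq'
      apply hmm
      rw [← vrun_eq hq, vrun_eq hq']
      exact mem_vrun_self hm'
    obtain ⟨⟨y, hy, hyP⟩, ⟨y', hy', hyP'⟩⟩ := mg_gen hD.con vrun_sub vrun_sub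
      (fun p hp q hq => vrun_joined hp hq) (fun p hp q hq => vrun_joined hp hq) hd
      (mem_vrun_self hm) (mem_vrun_self hm') ho ha h.v1 h.v2 h.v3 h'.v1 h'.v2 h'.v3 hw
    have e1 : y.1 = m.1 := hy.1
    have e2 : y'.1 = m'.1 := hy'.1
    have e3 : c1 ≤ y.1 ∧ y.1 ≤ c2 := hyP
    have e4 : c1 ≤ y'.1 ∧ y'.1 ≤ c2 := hyP'
    rw [abs_le]
    omega

theorem med_lip_row {D : Set Cell} (hD : Good D) {o a b b' m m' : Cell} (ho : o ∈ D) (ha : a ∈ D)
    (h : IsMed D o a b m) (h' : IsMed D o a b' m') {c1 c2 : ℤ} (hc : c1 ≤ c2)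
    (hw : Joined (D ∩ {v : Cell | c1 ≤ v.2 ∧ v.2 ≤ c2}) b b') : |m.2 - m'.2| ≤ c2 - c1 := by
  exact med_lip_col (good_swap hD) (o := o.swap) (a := a.swap) ho ha (isMed_swap h) (isMed_swap h')
    hc (joined_swap.2 hw)
/- END mg -/

end Pool.Agent.Lps
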