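import Pool.Agent.Lps.Defs

set_option autoImplicit false

/-!
# Winding numbers of closed walks in the grid
-/

namespace Pool.Agent.Lps

/- MODULE la
Elementary facts: adjacency in the grid, `Joined`. -/
theorem grid_adj {p q : Cell} : grid.Adj p q ↔ (p.1 = q.1 ∧ (q.2 = p.2 + 1 ∨ p.2 = q.2 + 1)) ∨
    (p.2 = q.2 ∧ (q.1 = p.1 + 1 ∨ p.1 = q.1 + 1)) := by
  obtain ⟨p1, p2⟩ := p
  obtain ⟨q1, q2⟩ := q
  simp only [grid, SimpleGraph.fromRel_adj, ne_eq, Prod.mk.injEq]
  omega

theorem joined_self {A : Set Cell} {p : Cell} : Joined A p p ↔ p ∈ A := by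
  constructor
  · rintro ⟨w, hw⟩
    exact hw p w.start_mem_support
  · intro hp
    refine ⟨SimpleGraph.Walk.nil, fun v hv => ?_⟩
    simp only [SimpleGraph.Walk.support_nil, List.mem_singleton] at hv
    rw [hv]
    exact hp

theorem Joined.symm {A : Set Cell} {p q : Cell} (h : Joined A p q) : Joined A q p := by
  obtain ⟨w, hw⟩ := h
  refine ⟨w.reverse, fun v hv => hw v ?_⟩
  rw [SimpleGraph.Walk.support_reverse, List.mem_reverse] at hv
  exact hv

theorem Joined.trans {A : Set Cell} {p q r : Cell} (h : Joined A p q) (h' : Joined A q r) :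
    Joined A p r := by
  obtain ⟨w, hw⟩ := h
  obtain ⟨w', hw'⟩ := h'
  refine ⟨w.append w', fun v hv => ?_⟩
  rw [SimpleGraph.Walk.mem_support_append_iff] at hv
  rcases hv with hv | hv
  · exact hw v hv
  · exact hw' v hv

theorem Joined.mono {A B : Set Cell} (hAB : A ⊆ B) {p q : Cell} (h : Joined A p q) :
    Joined B p q := by
  obtain ⟨w, hw⟩ := h
  exact ⟨w, fun v hv => hAB (hw v hv)⟩

theorem Joined.mem {A : Set Cell} {p q : Cell} (h : Joined A p q) : p ∈ A ∧ q ∈ A := by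
  obtain ⟨w, hw⟩ := h
  exact ⟨hw p w.start_mem_support, hw q w.end_mem_support⟩

theorem Joined.of_adj {A : Set Cell} {p q : Cell} (hp : p ∈ A) (hq : q ∈ A)
    (h : grid.Adj p q) : Joined A p q := by
  refine ⟨SimpleGraph.Walk.cons h SimpleGraph.Walk.nil, fun v hv => ?_⟩
  simp only [SimpleGraph.Walk.support_cons, SimpleGraph.Walk.support_nil, List.mem_cons,
    List.not_mem_nil, or_false] at hv
  rcases hv with hv | hv
  · rw [hv]
    exact hp
  · rw [hv]
    exact hq

/-- A walk which starts in `A ⊆ D` and ends off `A`, inside `D`: there is a first step out of `A`, and the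
part before it stays in `A`. -/
theorem Joined.exit {D A : Set Cell} {p q : Cell} (h : Joined D p q) (hp : p ∈ A) (hq : q ∉ A) :
    ∃ x y : Cell, Joined (A ∩ D) p x ∧ y ∈ D ∧ y ∉ A ∧ grid.Adj x y := by
  obtain ⟨w, hw⟩ := h
  induction w with
  | nil => exact absurd hp hq
  | @cons u r s hur w' ih =>
    have hu : u ∈ D := hw u (by simp)
    have hr : r ∈ D := hw r (by simp)
    by_cases hrA : r ∈ A
    · obtain ⟨x, y, h1, h2, h3, h4⟩ := ih hrA hq (fun v hv => hw v (by
        rw [SimpleGraph.Walk.support_cons]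
        exact List.mem_cons_of_mem _ hv))
      exact ⟨x, y, (Joined.of_adj (A := A ∩ D) ⟨hp, hu⟩ ⟨hrA, hr⟩ hur).trans h1, h2, h3, h4⟩
    · exact ⟨u, r, joined_self.2 ⟨hp, hu⟩, hr, hrA, hur⟩
/- END la -/

/- MODULE lb
The rules for the crossing numbers.  `cr_sub`: for each dart (horizontal steps only matter, both ends
have the same row) `sg a b d - sg a b' d` is the sum over `y` in `Ioc b b'` of the terms of `cx a y`.
`cr_up`: no dart joins `(a, b+1)` and `(a+1, b+1)` if one of them is not in the support.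
`cr_right`: flux into the region `Q = {(a+1, y) : y > b}`: for every dart
`1_Q(snd) - 1_Q(fst) = sg a b d - sg (a+1) b d` unless the dart joins `(a+1, b)` and `(a+1, b+1)`
(use `grid_adj` and case distinction), and the sum of `1_Q(snd) - 1_Q(fst)` over the darts of a closed
walk is `0` (telescoping, induction on the walk for `1_Q(end) - 1_Q(start)`). -/
theorem cr_append (a b : ℤ) {p q r : Cell} (w : grid.Walk p q) (w' : grid.Walk q r) :
    cr a b (w.append w') = cr a b w + cr a b w' := by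
  simp only [cr, SimpleGraph.Walk.darts_append, List.map_append, List.sum_append]

theorem cx_append (a y : ℤ) {p q r : Cell} (w : grid.Walk p q) (w' : grid.Walk q r) :
    cx a y (w.append w') = cx a y w + cx a y w' := by
  simp only [cx, SimpleGraph.Walk.darts_append, List.map_append, List.sum_append]

theorem cx_cons (a y : ℤ) {p q r : Cell} (h : grid.Adj p q) (w : grid.Walk q r) :
    cx a y (SimpleGraph.Walk.cons h w) = ((if p = (a, y) ∧ q = (a + 1, y) then (1 : ℤ) else 0) -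
      (if p = (a + 1, y) ∧ q = (a, y) then 1 else 0)) + cx a y w := by
  simp only [cx, SimpleGraph.Walk.darts_cons, List.map_cons, List.sum_cons]

theorem cx_eq_zero {a y : ℤ} {p q : Cell} {w : grid.Walk p q}
    (h : (∀ v ∈ w.support, v ≠ (a, y)) ∨ ∀ v ∈ w.support, v ≠ (a + 1, y)) : cx a y w = 0 := by
  unfold cx
  apply List.sum_eq_zero
  intro x hx
  rw [List.mem_map] at hx
  obtain ⟨d, hd, rfl⟩ := hx
  have h1 := w.dart_fst_mem_support_of_mem_darts hd
  have h2 := w.dart_snd_mem_support_of_mem_darts hd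
  rcases h with h | h
  · have e1 := h _ h1
    have e2 := h _ h2
    rw [if_neg (fun hh => e1 hh.1), if_neg (fun hh => e2 hh.2), sub_zero]
  · have e1 := h _ h1
    have e2 := h _ h2
    rw [if_neg (fun hh => e2 hh.2), if_neg (fun hh => e1 hh.1), sub_zero]

private theorem lb_one (a : ℤ) (b b' : ℤ) (c : ℤ) (p q : Cell) :
    (∑ y ∈ Finset.Ioc b b', if p = (a, y) ∧ q = (c, y) then (1 : ℤ) else 0) =
      if p.1 = a ∧ q.1 = c ∧ p.2 = q.2 ∧ b < p.2 ∧ p.2 ≤ b' then 1 else 0 := by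
  obtain ⟨p1, p2⟩ := p
  obtain ⟨q1, q2⟩ := q
  simp only [Prod.mk.injEq]
  split_ifs with h
  · obtain ⟨h1, h2, h3, h4, h5⟩ := h
    rw [Finset.sum_eq_single p2]
    · rw [if_pos ⟨⟨h1, rfl⟩, h2, h3.symm⟩]
    · intro y _ hy
      rw [if_neg (fun hh => hy hh.1.2.symm)]
    · intro hh
      exact absurd (Finset.mem_Ioc.2 ⟨h4, h5⟩) hh
  · apply Finset.sum_eq_zero
    intro y hy
    rw [Finset.mem_Ioc] at hy
    rw [if_neg]
    rintro ⟨⟨h1, h2⟩, h3, h4⟩
    exact h ⟨h1, h3, h2.trans h4.symm, by omega, by omega⟩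

private theorem lb_dart (a : ℤ) {b b' : ℤ} (hb : b ≤ b') {p q : Cell} (h : grid.Adj p q) :
    (∑ y ∈ Finset.Ioc b b', ((if p = (a, y) ∧ q = (a + 1, y) then (1 : ℤ) else 0) -
      (if p = (a + 1, y) ∧ q = (a, y) then 1 else 0))) =
      sg a b ⟨(p, q), h⟩ - sg a b' ⟨(p, q), h⟩ := by
  rw [Finset.sum_sub_distrib, lb_one, lb_one]
  have h' := grid_adj.1 h
  unfold sg
  obtain ⟨p1, p2⟩ := p
  obtain ⟨q1, q2⟩ := q
  simp only at h' ⊢
  split_ifs <;> omega

theorem cr_sub (a : ℤ) {b b' : ℤ} (hb : b ≤ b') {p q : Cell} (w : grid.Walk p q) :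
    cr a b w - cr a b' w = ∑ y ∈ Finset.Ioc b b', cx a y w := by
  induction w with
  | nil => simp [cr, cx]
  | @cons u r s hur w' ih =>
    have hsum : ∑ y ∈ Finset.Ioc b b', cx a y (SimpleGraph.Walk.cons hur w') =
        (sg a b ⟨(u, r), hur⟩ - sg a b' ⟨(u, r), hur⟩) + ∑ y ∈ Finset.Ioc b b', cx a y w' := by
      rw [← lb_dart a hb hur, ← Finset.sum_add_distrib]
      exact Finset.sum_congr rfl fun y _ => cx_cons a y hur w'
    rw [hsum, ← ih]
    simp only [cr, SimpleGraph.Walk.darts_cons, List.map_cons, List.sum_cons]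
    ring

theorem cr_up {a b : ℤ} {p q : Cell} {w : grid.Walk p q}
    (h : (∀ v ∈ w.support, v ≠ (a, b + 1)) ∨ ∀ v ∈ w.support, v ≠ (a + 1, b + 1)) :
    cr a b w = cr a (b + 1) w := by
  have h1 := cr_sub a (show b ≤ b + 1 by omega) w
  have h2 : Finset.Ioc b (b + 1) = {b + 1} := by
    ext y
    simp only [Finset.mem_Ioc, Finset.mem_singleton]
    omega
  rw [h2, Finset.sum_singleton, cx_eq_zero h] at h1
  omega

private theorem lb_flux {a b : ℤ} {p q : Cell} (w : grid.Walk p q)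
    (h : ∀ v ∈ w.support, v ≠ (a + 1, b)) :
    (if q.1 = a + 1 ∧ b < q.2 then (1 : ℤ) else 0) - (if p.1 = a + 1 ∧ b < p.2 then (1 : ℤ) else 0) =
      cr a b w - cr (a + 1) b w := by
  induction w with
  | nil => simp [cr]
  | @cons u r s hur w' ih =>
    have ih' := ih (fun v hv => h v (by
      rw [SimpleGraph.Walk.support_cons]
      exact List.mem_cons_of_mem _ hv))
    have hu : u ≠ (a + 1, b) := h u (by simp)
    have hr : r ≠ (a + 1, b) := h r (by simp)
    have e1 : ∀ a' : ℤ, cr a' b (SimpleGraph.Walk.cons hur w') = sg a' b ⟨(u, r), hur⟩ + cr a' b w' := by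
      intro a'
      simp only [cr, SimpleGraph.Walk.darts_cons, List.map_cons, List.sum_cons]
    rw [e1, e1]
    have h' := grid_adj.1 hur
    have e2 : (if r.1 = a + 1 ∧ b < r.2 then (1 : ℤ) else 0) -
        (if u.1 = a + 1 ∧ b < u.2 then (1 : ℤ) else 0) =
        sg a b ⟨(u, r), hur⟩ - sg (a + 1) b ⟨(u, r), hur⟩ := by
      unfold sg
      obtain ⟨u1, u2⟩ := u
      obtain ⟨r1, r2⟩ := r
      simp only [ne_eq, Prod.mk.injEq] at h' hu hr ⊢
      split_ifs <;> omega
    linarith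

theorem cr_right {a b : ℤ} {p : Cell} {w : grid.Walk p p} (h : ∀ v ∈ w.support, v ≠ (a + 1, b)) :
    cr a b w = cr (a + 1) b w := by
  have h1 := lb_flux (a := a) (b := b) w h
  rw [sub_self] at h1
  omega

theorem cr_far {a b : ℤ} {p q : Cell} {w : grid.Walk p q} (h : ∀ v ∈ w.support, v.2 ≤ b) :
    cr a b w = 0 := by
  unfold cr
  apply List.sum_eq_zero
  intro x hx
  rw [List.mem_map] at hx
  obtain ⟨d, hd, rfl⟩ := hx
  have h1 := h _ (w.dart_fst_mem_support_of_mem_darts hd)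
  unfold sg
  rw [if_neg (fun hh => by omega), if_neg (fun hh => by omega), sub_zero]
/- END lb -/

/- MODULE lc
For a closed walk `w` in `D` and cells `u, v` off `D` at king's distance at most one, `cr` at `u` and at
`v` agree: `u = v + (dx, dy)`, `dx, dy ∈ {-1, 0, 1}`, by `cr_up` and `cr_right`:
`cr a b = cr a (b+1)` if `(a, b+1)` or `(a+1, b+1)` is off `D`; `cr a b = cr (a+1) b` if `(a+1, b)` is off `D`.
Diagonal `(a,b), (a+1,b+1)` off `D`: `cr a b = cr a (b+1) = cr (a+1) (b+1)`.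
Diagonal `(a+1,b), (a,b+1)` off `D`: `cr (a+1) b = cr a b = cr a (b+1)`.
Then `Full D` with `N` above all rows of `D` (finite) and `cr_far`. -/
private theorem lc_step {D : Set Cell} {p : Cell} {w : grid.Walk p p}
    (hw : ∀ v ∈ w.support, v ∈ D) {u v : Cell} (hu : u ∉ D) (hv : v ∉ D)
    (h1 : |u.1 - v.1| ≤ 1) (h2 : |u.2 - v.2| ≤ 1) : cr u.1 u.2 w = cr v.1 v.2 w := by
  have off : ∀ e : Cell, e ∉ D → ∀ v ∈ w.support, v ≠ e := by
    intro e he v hv hve
    exact he (hve ▸ hw v hv)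
  have up : ∀ a b : ℤ, ((a, b + 1) : Cell) ∉ D → cr a b w = cr a (b + 1) w := by
    intro a b h
    exact cr_up (Or.inl (off _ h))
  have up' : ∀ a b : ℤ, ((a + 1, b + 1) : Cell) ∉ D → cr a b w = cr a (b + 1) w := by
    intro a b h
    exact cr_up (Or.inr (off _ h))
  have ri : ∀ a b : ℤ, ((a + 1, b) : Cell) ∉ D → cr a b w = cr (a + 1) b w := by
    intro a b h
    exact cr_right (off _ h)
  obtain ⟨u1, u2⟩ := u
  obtain ⟨v1, v2⟩ := v
  simp only at h1 h2 ⊢
  rw [abs_le] at h1 h2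
  have hx : u1 = v1 ∨ v1 = u1 + 1 ∨ u1 = v1 + 1 := by omega
  have hy : u2 = v2 ∨ v2 = u2 + 1 ∨ u2 = v2 + 1 := by omega
  rcases hx with rfl | rfl | rfl
  · rcases hy with rfl | rfl | rfl
    · rfl
    · exact up _ _ hv
    · exact (up _ _ hu).symm
  · rcases hy with rfl | rfl | rfl
    · exact ri _ _ hv
    · exact (up' _ _ hv).trans (ri _ _ hv)
    · exact (up _ _ hu).symm.trans (ri _ _ hv)
  · rcases hy with rfl | rfl | rfl
    · exact (ri _ _ hu).symm
    · exact (ri _ _ hu).symm.trans (up _ _ hv)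
    · exact ((up' _ _ hu).trans (ri _ _ hu)).symm

theorem cr_eq_zero {D : Set Cell} (hD : Good D) {p : Cell} {w : grid.Walk p p}
    (hw : ∀ v ∈ w.support, v ∈ D) {e : Cell} (he : e ∉ D) : cr e.1 e.2 w = 0 := by
  have key : ∀ v : Cell, Relation.ReflTransGen
      (fun u v : Cell => v ∉ D ∧ |u.1 - v.1| ≤ 1 ∧ |u.2 - v.2| ≤ 1) e v →
      v ∉ D ∧ cr e.1 e.2 w = cr v.1 v.2 w := by
    intro v hv
    induction hv with
    | refl => exact ⟨he, rfl⟩
    | @tail u v _ huv ih =>
      obtain ⟨hv, h1, h2⟩ := huv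
      exact ⟨hv, ih.2.trans (lc_step hw ih.1 hv h1 h2)⟩
  obtain ⟨N, hN⟩ : ∃ N : ℤ, ∀ v ∈ D, v.2 ≤ N := by
    obtain ⟨N, hN⟩ := (hD.fin.image Prod.snd).bddAbove
    exact ⟨N, fun v hv => hN ⟨v, hv, rfl⟩⟩
  obtain ⟨e', _, h2, h3⟩ := hD.full e he N
  rw [(key e' h3).2]
  exact cr_far fun v hv => (hN v (hw v hv)).trans h2
/- END lc -/

end Pool.Agent.Lps
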